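import Pool.Agent.H373R2.T7.Fund
import Pool.Agent.H373R2.T7.SysMain
import Pool.Agent.TH423.SH.PRDP

set_option autoImplicit false
set_option maxHeartbeats 4000000

/-! # The sieve product and the upper bound in short intervals -/

namespace Pool.Agent.K6.H86.WT

open Finset Filter Pool.Agent.H373R2.T7

/-- one of the shifts `n + h` is divisible by `p` -/
def Qh (H : Finset ℕ) (p n : ℕ) : Prop := ∃ h ∈ H, p ∣ n + h

/-- for every prime `p` some `m` has neither `m` nor any `m + h`, `h ∈ H`, divisible by `p` -/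
def Adm (H : Finset ℕ) : Prop := ∀ p : ℕ, p.Prime → ∃ m : ℕ, ¬ p ∣ m ∧ ∀ h ∈ H, ¬ p ∣ m + h

lemma Qh_per (H : Finset ℕ) (p n : ℕ) : Qh H p n ↔ Qh H p (n % p) := by
  unfold Qh
  have : ∀ h, p ∣ n + h ↔ p ∣ n % p + h := by
    intro h
    have h1 : n + h ≡ n % p + h [MOD p] := (Nat.mod_modEq n p).symm.add_right h
    exact h1.dvd_iff dvd_rfl
  simp only [this]

lemma res_eq (p n h : ℕ) (hp : 0 < p) (hn : n < p) (hd : p ∣ n + h) : n = (p - h % p) % p := by
  have h1 : (n + h % p) % p = 0 := by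
    have h2 : n + h ≡ n + h % p [MOD p] := (Nat.mod_modEq h p).symm.add_left n
    exact Nat.mod_eq_zero_of_dvd ((h2.dvd_iff dvd_rfl).1 hd)
  have h3 : h % p < p := Nat.mod_lt _ hp
  have h4 : n + h % p = 0 ∨ n + h % p = p := by
    rcases lt_or_ge (n + h % p) p with h5 | h5
    · rw [Nat.mod_eq_of_lt h5] at h1
      exact Or.inl h1
    · right
      have h6 : n + h % p - p < p := by omega
      rw [Nat.mod_eq_sub_mod h5, Nat.mod_eq_of_lt h6] at h1
      omega
  rcases h4 with h5 | h5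
  · have h6 : h % p = 0 := by omega
    have h7 : n = 0 := by omega
    rw [h6, h7, Nat.sub_zero, Nat.mod_self]
  · rcases Nat.eq_zero_or_pos (h % p) with h6 | h6
    · omega
    · have h7 : p - h % p < p := by omega
      rw [Nat.mod_eq_of_lt h7]
      omega

open Classical in
lemma rho_le (H : Finset ℕ) (k : ℕ) (hk : H.card ≤ k) (p : ℕ) (hp : p.Prime) : rhoA (Qh H) p ≤ k := by
  unfold rhoA
  refine le_trans (card_le_card (t := H.image (fun h => (p - h % p) % p)) ?_) (card_image_le.trans hk)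
  intro n hn
  rw [mem_filter, mem_range] at hn
  obtain ⟨h1, h2, h, hh, hd⟩ := hn
  exact mem_image.2 ⟨h, hh, (res_eq p n h hp.pos h1 hd).symm⟩

open Classical in
lemma rho_two (H : Finset ℕ) (hH : Adm H) (p : ℕ) (hp : p.Prime) : rhoA (Qh H) p + 2 ≤ p := by
  obtain ⟨m, hm1, hm2⟩ := hH p hp
  have hmp : m % p < p := Nat.mod_lt _ hp.pos
  have hm0 : m % p ≠ 0 := fun h => hm1 (Nat.dvd_of_mod_eq_zero h)
  unfold rhoA
  have hsub : (range p).filter (fun r => ¬ p ∣ r ∧ Qh H p r) ⊆ ((range p).erase 0).erase (m % p) := by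
    intro r hr
    rw [mem_filter, mem_range] at hr
    rw [mem_erase, mem_erase, mem_range]
    refine ⟨?_, ?_, hr.1⟩
    · rintro rfl
      obtain ⟨h, hh, hd⟩ := (Qh_per H p m).2 hr.2.2
      exact hm2 h hh hd
    · rintro rfl
      exact hr.2.1 (dvd_zero p)
  have h1 := card_le_card hsub
  rw [card_erase_of_mem, card_erase_of_mem, card_range] at h1
  · have := hp.two_le
    omega
  · exact mem_range.2 hp.pos
  · rw [mem_erase, mem_range]
    exact ⟨hm0, hmp⟩

lemma perA (H : Finset ℕ) (k : ℕ) (hk : H.card ≤ k) : PerA (Qh H) k :=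
  ⟨Qh_per H, fun p hp => rho_le H k hk p hp⟩

/-- the sieve product -/
noncomputable def PI (H : Finset ℕ) (y : ℕ) : ℝ := ∏ p ∈ pz y, (1 - (rhoA (Qh H) p : ℝ) / (p - 1 : ℝ))

lemma fac_low (k p ρ : ℕ) (h1 : ρ ≤ k) (h2 : ρ + 2 ≤ p) :
    (1 - 1 / (p : ℝ)) ^ (k ^ 2 + k) ≤ 1 - (ρ : ℝ) / (p - 1 : ℝ) ∧ 0 < 1 - (ρ : ℝ) / (p - 1 : ℝ) := by
  have hq : (ρ : ℝ) + 1 ≤ (p : ℝ) - 1 := by
    have : (ρ : ℝ) + 2 ≤ p := by exact_mod_cast h2
    linarith
  have hρ0 : (0 : ℝ) ≤ ρ := Nat.cast_nonneg _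
  have hρk : (ρ : ℝ) ≤ k := by exact_mod_cast h1
  obtain ⟨q, hqd⟩ : ∃ q : ℝ, q = (p : ℝ) - 1 := ⟨_, rfl⟩
  have hpq : (p : ℝ) = q + 1 := by linarith
  rw [← hqd] at hq ⊢
  rw [hpq]
  have hq0 : 0 < q := by linarith
  have e1 : 1 - 1 / (q + 1) = (1 + 1 / q)⁻¹ := by field_simp; ring
  have e2 : 1 + ((k ^ 2 + k : ℕ) : ℝ) * (1 / q) ≤ (1 + 1 / q) ^ (k ^ 2 + k) :=
    one_add_mul_le_pow (by have : 0 < 1 / q := by positivity
                           linarith) _
  have e3 : 1 - (ρ : ℝ) / q = (q - ρ) / q := by field_simp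
  constructor
  · rw [e1, inv_pow, e3]
    have e4 : (1 + ((k ^ 2 + k : ℕ) : ℝ) * (1 / q)) = (q + (k ^ 2 + k)) / q := by
      push_cast
      field_simp
    rw [e4] at e2
    calc ((1 + 1 / q) ^ (k ^ 2 + k))⁻¹ ≤ ((q + (k ^ 2 + k)) / q)⁻¹ := by
          apply inv_anti₀ (by positivity) e2
      _ = q / (q + (k ^ 2 + k)) := by rw [inv_div]
      _ ≤ (q - ρ) / q := by
        rw [div_le_div_iff₀ (by positivity) hq0]
        have h3 : (ρ : ℝ) * (ρ + (q - ρ)) ≤ (k ^ 2 + k) * (q - ρ) := by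
          have h4 : 1 ≤ q - ρ := by linarith
          have h5 : (ρ : ℝ) * ρ ≤ k ^ 2 := by nlinarith
          have h6 : (ρ : ℝ) * ρ * 1 ≤ k ^ 2 * (q - ρ) := mul_le_mul h5 h4 (by norm_num) (by positivity)
          have h7 : (ρ : ℝ) * (q - ρ) ≤ k * (q - ρ) := mul_le_mul_of_nonneg_right hρk (by linarith)
          nlinarith
        nlinarith
  · rw [e3]
    apply div_pos _ hq0
    linarith

/-- weak lower bound for the product -/
theorem PI_low (k : ℕ) : ∃ (U y0 : ℕ), ∀ y : ℕ, y0 ≤ y → ∀ H : Finset ℕ, H.card ≤ k → Adm H →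
    1 / Real.log y ^ U ≤ PI H y ∧ 0 < PI H y ∧ PI H y ≤ 1 := by
  obtain ⟨C, N0, h⟩ := Vz_low
  refine ⟨C * (k ^ 2 + k), N0 + 2, fun y hy H hk hH => ?_⟩
  have h1 := h y (by omega)
  have hf := fun p (hp : p ∈ pz y) => fac_low k p (rhoA (Qh H) p) (rho_le H k hk p (mem_pz.1 hp).2)
    (rho_two H hH p (mem_pz.1 hp).2)
  refine ⟨?_, ?_, ?_⟩
  · have hl : 0 ≤ 1 / Real.log y ^ C := by
      have := Real.log_natCast_nonneg y
      positivity
    calc 1 / Real.log y ^ (C * (k ^ 2 + k)) = (1 / Real.log y ^ C) ^ (k ^ 2 + k) := by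
          rw [div_pow, one_pow, ← pow_mul]
      _ ≤ (Vz y) ^ (k ^ 2 + k) := pow_le_pow_left₀ hl h1 _
      _ = ∏ p ∈ pz y, (1 - 1 / (p : ℝ)) ^ (k ^ 2 + k) := by unfold Vz; rw [prod_pow]
      _ ≤ PI H y := by
        unfold PI
        apply Finset.prod_le_prod
        · intro p hp
          have hp1 : (1 : ℝ) ≤ p := by exact_mod_cast (mem_pz.1 hp).2.one_lt.le
          have : 1 / (p : ℝ) ≤ 1 := by rw [div_le_one (by linarith)]; exact hp1
          apply pow_nonneg
          linarith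
        · intro p hp
          exact (hf p hp).1
  · unfold PI
    exact prod_pos fun p hp => (hf p hp).2
  · unfold PI
    apply prod_le_one
    · intro p hp
      exact (hf p hp).2.le
    · intro p hp
      have hp1 : (1 : ℝ) < p := by exact_mod_cast (mem_pz.1 hp).2.one_lt
      have : 0 ≤ (rhoA (Qh H) p : ℝ) / (p - 1 : ℝ) := div_nonneg (Nat.cast_nonneg _) (by linarith)
      linarith

/-- Mertens, upper bound -/
theorem Vz_up (y : ℕ) (hy : 2 ≤ y) : Vz y * Real.log y ≤ 1 := by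
  have h := Pool.Agent.TH423.SH.prb 1 y le_rfl hy
  have e : Pool.Agent.TH423.SH.PIj 1 y 1 = Vz y := by
    unfold Pool.Agent.TH423.SH.PIj Vz
    apply prod_congr
    · ext p
      rw [Pool.Agent.TH423.SH.PrdP.mem_PS, mem_pz]
      constructor
      · rintro ⟨⟨_, h2⟩, h3, _⟩; exact ⟨h2, h3⟩
      · rintro ⟨h1, h2⟩
        exact ⟨⟨h2.one_lt.le, h1⟩, h2, fun h => h2.one_lt.ne' (Nat.dvd_one.1 h)⟩
    · intro p _
      push_cast
      rfl
  rw [e] at h
  simpa using h

open Classical in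
/-- **Upper bound in short intervals**, for `n` and the `n + h`, `h ∈ H`, without prime factors `≤ y`. -/
theorem upper (k : ℕ) : ∃ K y0 : ℕ, 1 ≤ K ∧ ∀ y : ℕ, y0 ≤ y → ∀ H : Finset ℕ, H.card ≤ k → Adm H →
    ∀ A ℓ : ℕ, (((Ioc A (A + ℓ)).filter (fun n => ∀ p ∈ pz y, ¬ p ∣ n ∧ ¬ Qh H p n)).card : ℝ) ≤
      2 * ℓ * (PI H y / Real.log y) + (y : ℝ) ^ K := by
  obtain ⟨K, x0, hK, h⟩ := sys_fund (k + 1) (by omega) 1 one_pos
  refine ⟨K, max x0 2, hK, fun y hy H hk hH A ℓ => ?_⟩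
  have hy2 : 2 ≤ y := (le_max_right _ _).trans hy
  have hlog : 0 < Real.log y := Real.log_pos (by exact_mod_cast (by omega : 1 < y))
  obtain ⟨Q, hQ⟩ : ∃ Q : ℕ → ℕ → Prop, ∀ p n, Q p n ↔ (p ∣ n + A ∨ Qh H p (n + A)) := ⟨_, fun _ _ => Iff.rfl⟩
  have hper : ∀ p n, Q p n ↔ Q p (n % p) := by
    intro p n
    rw [hQ, hQ]
    have h1 : n + A ≡ n % p + A [MOD p] := (Nat.mod_modEq n p).symm.add_right A
    rw [h1.dvd_iff dvd_rfl, Qh_per H p (n + A), Qh_per H p (n % p + A), h1]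
  -- at most `k + 1` classes
  have hfew : ∀ p, p.Prime → nuB Q p ≤ k + 1 := by
    intro p hp
    unfold nuB
    refine le_trans (card_le_card (t := insert ((p - A % p) % p) (H.image (fun h => (p - (A + h) % p) % p))) ?_) ?_
    · intro n hn
      rw [mem_filter, mem_range, hQ] at hn
      rw [mem_insert, mem_image]
      rcases hn.2 with h1 | ⟨h, hh, hd⟩
      · exact Or.inl (res_eq p n A hp.pos hn.1 h1)
      · exact Or.inr ⟨h, hh, (res_eq p n (A + h) hp.pos hn.1 (by rw [← add_assoc]; exact hd)).symm⟩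
    · refine (card_insert_le _ _).trans ?_
      have := card_image_le (s := H) (f := fun h => (p - (A + h) % p) % p)
      omega
  -- at least `1 + rhoA` classes
  have hmany : ∀ p, p.Prime → 1 + rhoA (Qh H) p ≤ nuB Q p := by
    intro p hp
    have e : (insert 0 ((range p).filter (fun r => ¬ p ∣ r ∧ Qh H p r))).card = 1 + rhoA (Qh H) p := by
      rw [card_insert_of_notMem (by
        rw [mem_filter]
        rintro ⟨-, h1, -⟩
        exact h1 (dvd_zero p))]
      unfold rhoA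
      rw [add_comm]
    rw [← e]
    unfold nuB
    apply card_le_card_of_injOn (fun r => (r + (p - A % p)) % p)
    · intro r hr
      have hr' : r < p ∧ (p ∣ r ∨ Qh H p r) := by
        rw [mem_coe, mem_insert, mem_filter, mem_range] at hr
        rcases hr with rfl | hr
        · exact ⟨hp.pos, Or.inl (dvd_zero p)⟩
        · exact ⟨hr.1, Or.inr hr.2.2⟩
      rw [mem_coe, mem_filter, mem_range, hQ]
      refine ⟨Nat.mod_lt _ hp.pos, ?_⟩
      have h1 : (r + (p - A % p)) % p + A ≡ r [MOD p] := by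
        have h2 : (r + (p - A % p)) % p + A ≡ (r + (p - A % p)) + A % p [MOD p] :=
          (Nat.mod_modEq _ _).add (Nat.mod_modEq A p).symm
        have h3 : (r + (p - A % p)) + A % p = r + p := by
          have := Nat.mod_lt A hp.pos
          omega
        rw [h3] at h2
        exact h2.trans (by simp [Nat.ModEq])
      rcases hr'.2 with h2 | ⟨h, hh, hd⟩
      · exact Or.inl ((h1.dvd_iff dvd_rfl).2 h2)
      · exact Or.inr ⟨h, hh, ((h1.add_right h).dvd_iff dvd_rfl).2 hd⟩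
    · intro r hr s hs hrs
      have hlt : ∀ r, r ∈ (insert 0 ((range p).filter (fun r => ¬ p ∣ r ∧ Qh H p r)) : Finset ℕ) → r < p := by
        intro r hr
        rw [mem_insert, mem_filter, mem_range] at hr
        rcases hr with rfl | hr
        · exact hp.pos
        · exact hr.1
      have h1 : r + (p - A % p) ≡ s + (p - A % p) [MOD p] := hrs
      have h2 := Nat.ModEq.add_right_cancel' _ h1
      exact Nat.ModEq.eq_of_lt_of_lt h2 (hlt r (mem_coe.1 hr)) (hlt s (mem_coe.1 hs))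
  have hmain := (abs_le.1 (h (y ^ K) y ((le_max_left _ _).trans hy) le_rfl Q ⟨hper, hfew⟩ ℓ)).2
  -- the product
  have hprod : ∏ p ∈ pz y, (1 - (nuB Q p : ℝ) / p) ≤ PI H y / Real.log y := by
    have h1 : ∏ p ∈ pz y, (1 - (nuB Q p : ℝ) / p) ≤ Vz y * PI H y := by
      unfold Vz PI
      rw [← prod_mul_distrib]
      apply Finset.prod_le_prod
      · intro p hp
        have hp0 : (0 : ℝ) < p := by exact_mod_cast (mem_pz.1 hp).2.pos
        have := nuB_le Q p
        have h2 : (nuB Q p : ℝ) / p ≤ 1 := by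
          rw [div_le_one hp0]; exact_mod_cast this
        linarith
      · intro p hp
        have hpp := (mem_pz.1 hp).2
        have hp1 : (1 : ℝ) < p := by exact_mod_cast hpp.one_lt
        have h2 : (1 : ℝ) + rhoA (Qh H) p ≤ nuB Q p := by exact_mod_cast hmany p hpp
        have e : (1 - 1 / (p : ℝ)) * (1 - (rhoA (Qh H) p : ℝ) / (p - 1 : ℝ)) =
            1 - (1 + (rhoA (Qh H) p : ℝ)) / p := by
          have h3 : (p : ℝ) - 1 ≠ 0 := by linarith
          have h4 : (p : ℝ) ≠ 0 := by linarith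
          field_simp
          ring
        rw [e]
        have h5 : (1 + (rhoA (Qh H) p : ℝ)) / p ≤ (nuB Q p : ℝ) / p :=
          div_le_div_of_nonneg_right h2 (by linarith)
        linarith
    refine h1.trans ?_
    rw [le_div_iff₀ hlog]
    have h2 : 0 ≤ PI H y := by
      unfold PI
      exact prod_nonneg fun p hp => (fac_low k p (rhoA (Qh H) p) (rho_le H k hk p (mem_pz.1 hp).2)
        (rho_two H hH p (mem_pz.1 hp).2)).2.le
    calc Vz y * PI H y * Real.log y = (Vz y * Real.log y) * PI H y := by ring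
      _ ≤ 1 * PI H y := mul_le_mul_of_nonneg_right (Vz_up y hy2) h2
      _ = _ := one_mul _
  -- the shift
  have hcard : (((Ioc A (A + ℓ)).filter (fun n => ∀ p ∈ pz y, ¬ p ∣ n ∧ ¬ Qh H p n)).card : ℝ) ≤
      (((Icc 1 ℓ).filter (fun n : ℕ => ∀ p ∈ pz y, ¬ Q p n)).card : ℝ) := by
    have : ((Ioc A (A + ℓ)).filter (fun n => ∀ p ∈ pz y, ¬ p ∣ n ∧ ¬ Qh H p n)).card ≤
        ((Icc 1 ℓ).filter (fun n : ℕ => ∀ p ∈ pz y, ¬ Q p n)).card := by
      apply card_le_card_of_injOn (fun n => n - A)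
      · intro n hn
        rw [mem_coe, mem_filter, mem_Ioc] at hn
        rw [mem_coe, mem_filter, mem_Icc]
        refine ⟨⟨by show 1 ≤ n - A; omega, by show n - A ≤ ℓ; omega⟩, fun p hp => ?_⟩
        rw [hQ, Nat.sub_add_cancel hn.1.1.le]
        rintro (h1 | h1)
        · exact (hn.2 p hp).1 h1
        · exact (hn.2 p hp).2 h1
      · intro n hn m hm hnm
        rw [mem_coe, mem_filter, mem_Ioc] at hn hm
        have : n - A = m - A := hnm
        omega
    exact_mod_cast this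
  have hsq : √((y ^ K : ℕ) : ℝ) ≤ (y : ℝ) ^ K := by
    have h1 : (1 : ℝ) ≤ (y : ℝ) ^ K := one_le_pow₀ (by exact_mod_cast (by omega : 1 ≤ y))
    rw [Nat.cast_pow]
    calc √((y : ℝ) ^ K) ≤ √((y : ℝ) ^ K * (y : ℝ) ^ K) := Real.sqrt_le_sqrt (by nlinarith)
      _ = (y : ℝ) ^ K := Real.sqrt_mul_self (by positivity)
  have h9 : (ℓ : ℝ) * ∏ p ∈ pz y, (1 - (nuB Q p : ℝ) / p) ≤ ℓ * (PI H y / Real.log y) :=
    mul_le_mul_of_nonneg_left hprod (Nat.cast_nonneg _)
  refine hcard.trans ?_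
  calc (((Icc 1 ℓ).filter (fun n : ℕ => ∀ p ∈ pz y, ¬ Q p n)).card : ℝ) ≤
      2 * (ℓ * ∏ p ∈ pz y, (1 - (nuB Q p : ℝ) / p)) + √((y ^ K : ℕ) : ℝ) := by
        linarith
    _ ≤ 2 * (ℓ * (PI H y / Real.log y)) + (y : ℝ) ^ K := by linarith
    _ = _ := by ring

end Pool.Agent.K6.H86.WT
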