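import Pool.Agent.K6.H86.WT.Prim
import Pool.Agent.K6.H86.WT.Up

set_option autoImplicit false
set_option maxHeartbeats 4000000

/-! # The list of the good primes of a window, well distributed -/

namespace Pool.Agent.K6.H86.WT

open Finset Filter Pool.Agent.H373R2.T7

/-- `N` is prime, and for all `h ∈ H`: all prime factors of `N + h` are larger than `N ^ (1 / r)`, and if `h ≤ N`
there are at most `r` of them, with multiplicity -/
def PrimeAlmost (r : ℕ) (H : Finset ℕ) (N : ℕ) : Prop :=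
  N.Prime ∧ ∀ h ∈ H, (∀ q : ℕ, q.Prime → q ∣ N + h → (N : ℝ) ^ (1 / (r : ℝ)) < (q : ℝ)) ∧
    (h ≤ N → (N + h).primeFactorsList.length ≤ r)

lemma prod_ge (z : ℝ) (hz : 0 < z) (l : List ℕ) (hl : ∀ p ∈ l, z < (p : ℝ)) : z ^ l.length ≤ (l.prod : ℝ) := by
  induction l with
  | nil => simp
  | cons a l ih =>
    have h1 := ih (fun p hp => hl p (List.mem_cons_of_mem _ hp))
    have h2 := hl a List.mem_cons_self
    rw [List.length_cons, List.prod_cons, pow_succ, Nat.cast_mul, mul_comm]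
    exact mul_le_mul h2.le h1 (by positivity) (by positivity)

/-- the property from the sifting -/
lemma primeAlmost_of (r₀ : ℕ) (hr₀ : 1 ≤ r₀) (H : Finset ℕ) (X N : ℕ) (hX : 4 ≤ X) (hN : N.Prime)
    (hNX : N ≤ 2 * X) (hs : ∀ p ∈ pz ⌊(X : ℝ) ^ (1 / (r₀ : ℝ))⌋₊, ¬ Qh H p N) :
    PrimeAlmost (2 * r₀) H N := by
  have hXr : (4 : ℝ) ≤ X := by exact_mod_cast hX
  have hX0 : (0 : ℝ) < X := by linarith
  have hr : (0 : ℝ) < r₀ := by exact_mod_cast hr₀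
  have hbig : ∀ h ∈ H, ∀ q : ℕ, q.Prime → q ∣ N + h → (X : ℝ) ^ (1 / (r₀ : ℝ)) < q := by
    intro h hh q hq hqN
    by_contra hcon
    rw [not_lt] at hcon
    exact hs q (mem_pz.2 ⟨Nat.le_floor hcon, hq⟩) ⟨h, hh, hqN⟩
  refine ⟨hN, fun h hh => ⟨fun q hq hqN => lt_of_le_of_lt ?_ (hbig h hh q hq hqN), fun hhN => ?_⟩⟩
  · have h1 : (N : ℝ) ≤ (X : ℝ) ^ (2 : ℝ) := by
      rw [Real.rpow_two]
      have : (N : ℝ) ≤ 2 * X := by exact_mod_cast hNX
      nlinarith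
    calc (N : ℝ) ^ (1 / ((2 * r₀ : ℕ) : ℝ)) ≤ ((X : ℝ) ^ (2 : ℝ)) ^ (1 / ((2 * r₀ : ℕ) : ℝ)) :=
          Real.rpow_le_rpow (Nat.cast_nonneg _) h1 (by positivity)
      _ = (X : ℝ) ^ (1 / (r₀ : ℝ)) := by
          rw [← Real.rpow_mul hX0.le]
          congr 1
          push_cast
          field_simp
  · by_contra hcon
    rw [not_le] at hcon
    have hz1 : 1 < (X : ℝ) ^ (1 / (r₀ : ℝ)) := Real.one_lt_rpow (by linarith) (by positivity)
    have hN0 : N + h ≠ 0 := by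
      have := hN.pos
      omega
    have h1 := prod_ge _ (by linarith) (N + h).primeFactorsList (fun p hp =>
      hbig h hh p (Nat.prime_of_mem_primeFactorsList hp) (Nat.dvd_of_mem_primeFactorsList hp))
    rw [Nat.prod_primeFactorsList hN0] at h1
    have h2 : ((X : ℝ) ^ (1 / (r₀ : ℝ))) ^ (2 * r₀) < ((X : ℝ) ^ (1 / (r₀ : ℝ))) ^ (N + h).primeFactorsList.length :=
      pow_lt_pow_right₀ hz1 hcon
    have h3 : ((X : ℝ) ^ (1 / (r₀ : ℝ))) ^ (2 * r₀) = (X : ℝ) ^ 2 := by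
      rw [← Real.rpow_natCast, ← Real.rpow_mul hX0.le, ← Real.rpow_two]
      congr 1
      push_cast
      field_simp
    have h4 : ((N + h : ℕ) : ℝ) ≤ (X : ℝ) ^ 2 := by
      have h5 : ((N + h : ℕ) : ℝ) ≤ 4 * X := by
        have : N + h ≤ 4 * X := by omega
        exact_mod_cast this
      nlinarith
    rw [h3] at h2
    linarith

/-- the elements of a finite set in increasing order -/
lemma enum (S : Finset ℕ) : ∃ y : ℕ → ℕ, (∀ i, i < S.card → y i ∈ S) ∧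
    (∀ i j, i < j → j < S.card → y i < y j) ∧
    (∀ i j, i ≤ j → j < S.card → j - i + 1 ≤ (S.filter (fun n => y i ≤ n ∧ n ≤ y j)).card) := by
  classical
  obtain ⟨e, he⟩ : ∃ e : Fin S.card ↪o ℕ, e = S.orderEmbOfFin rfl := ⟨_, rfl⟩
  have hmem : ∀ i, e i ∈ S := by
    intro i
    rw [he]
    exact orderEmbOfFin_mem S rfl i
  refine ⟨fun i => if h : i < S.card then e ⟨i, h⟩ else 0, ?_, ?_, ?_⟩
  · intro i hi
    simp only [dif_pos hi]
    exact hmem _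
  · intro i j hij hj
    have hi : i < S.card := hij.trans hj
    simp only [dif_pos hj, dif_pos hi]
    exact e.strictMono (by exact_mod_cast hij)
  · intro i j hij hj
    have hi : i < S.card := lt_of_le_of_lt hij hj
    simp only [dif_pos hj, dif_pos hi]
    have h1 : ((Finset.Icc (⟨i, hi⟩ : Fin S.card) ⟨j, hj⟩).map e.toEmbedding) ⊆
        S.filter (fun n => e ⟨i, hi⟩ ≤ n ∧ n ≤ e ⟨j, hj⟩) := by
      intro n hn
      rw [Finset.mem_map] at hn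
      obtain ⟨l, hl, rfl⟩ := hn
      rw [mem_Icc] at hl
      rw [mem_filter]
      exact ⟨hmem l, e.monotone hl.1, e.monotone hl.2⟩
    have h2 := card_le_card h1
    rw [card_map, Fin.card_Icc] at h2
    simp only at h2
    omega

/-- **The list of the good primes of a window.** -/
theorem window (k : ℕ) (β : ℝ) (hβ : 0 < β) (hβ1 : β ≤ 1) : ∃ (r : ℕ) (D : ℝ), 1 ≤ r ∧ 1 ≤ D ∧
    ∀ s E : ℝ, 0 < s → s < 1 → 0 < E → ∃ X₀ : ℕ, ∀ X x : ℕ, X₀ ≤ X → (1 + β) * X ≤ x → x ≤ 2 * X →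
      ∀ H : Finset ℕ, H.card ≤ k → Adm H → ∃ (m : ℕ) (y : ℕ → ℕ), 1 ≤ m ∧ E * (X : ℝ) ^ s ≤ m ∧
        (∀ i, i < m → X < y i ∧ y i ≤ x ∧ PrimeAlmost r H (y i)) ∧
        (∀ i j, i < j → j < m → y i < y j ∧
          ((j : ℝ) - i + 1) * (X : ℝ) ^ s ≤ D * m * ((y j : ℝ) - y i) ^ s) := by
  classical
  obtain ⟨K0, hK0, hlow⟩ := prime_low (k + 1) (by omega) β hβ hβ1
  obtain ⟨K1, y1, hK1, hup⟩ := upper k
  obtain ⟨U, y0, hPI⟩ := PI_low k
  obtain ⟨r₀, hr₀⟩ : ∃ r₀ : ℕ, r₀ = max K0 (4 * K1) := ⟨_, rfl⟩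
  have hr0 : K0 ≤ r₀ := by rw [hr₀]; exact le_max_left _ _
  have hr1 : 4 * K1 ≤ r₀ := by rw [hr₀]; exact le_max_right _ _
  have hr2 : 2 ≤ r₀ := hK0.trans hr0
  have hrr : (2 : ℝ) ≤ r₀ := by exact_mod_cast hr2
  have hrpos : (0 : ℝ) < r₀ := by linarith
  refine ⟨2 * r₀, 32 * r₀ / β + 2, by omega, by
    have : 0 < 32 * (r₀ : ℝ) / β := by positivity
    linarith, fun s E hs0 hs1 hE => ?_⟩
  have hXr : Tendsto (fun X : ℕ => (X : ℝ)) atTop atTop := tendsto_natCast_atTop_atTop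
  -- the power thresholds
  obtain ⟨e, he⟩ : ∃ e : ℝ, e = max (7 / 8) ((1 + s) / 2) := ⟨_, rfl⟩
  have he1 : e < 1 := by rw [he]; exact max_lt (by norm_num) (by linarith)
  have he2 : 7 / 8 ≤ e := by rw [he]; exact le_max_left _ _
  have he3 : (1 + s) / 2 ≤ e := by rw [he]; exact le_max_right _ _
  have hev1 : ∀ᶠ X : ℕ in atTop, (4 * (E + 2) / β) * Real.log (X : ℝ) ^ (U + 1) ≤ (X : ℝ) ^ (1 - e) := by
    have h := ((isLittleO_log_rpow_rpow_atTop ((U + 1 : ℕ) : ℝ) (by linarith : (0 : ℝ) < 1 - e)).comp_tendsto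
      tendsto_natCast_atTop_atTop).bound (by positivity : (0 : ℝ) < β / (4 * (E + 2)))
    filter_upwards [h, eventually_ge_atTop 1] with X h2 hX1
    have hX1' : (1 : ℝ) ≤ X := by exact_mod_cast hX1
    have hlog : 0 ≤ Real.log (X : ℝ) := Real.log_nonneg hX1'
    simp only [Function.comp_def] at h2
    rw [Real.norm_of_nonneg (by positivity), Real.norm_of_nonneg (by positivity),
      Real.rpow_natCast, div_mul_eq_mul_div, le_div_iff₀ (by positivity)] at h2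
    rw [div_mul_eq_mul_div, div_le_iff₀ hβ]
    linarith
  have hev2 : ∀ᶠ X : ℕ in atTop, ((max y0 y1 : ℕ) : ℝ) + 4 ≤ (X : ℝ) ^ (1 / (2 * r₀ : ℝ)) :=
    ((tendsto_rpow_atTop (by positivity)).comp hXr).eventually_ge_atTop _
  obtain ⟨X₀, hX₀⟩ := eventually_atTop.1 ((hlow r₀ hr0 U).and ((hev1.and hev2).and (eventually_ge_atTop 4)))
  refine ⟨X₀, fun X x hX hx1 hx2 H hk hH => ?_⟩
  obtain ⟨g1, ⟨g2, g3⟩, g4⟩ := hX₀ X hX
  have hX4 : (4 : ℝ) ≤ X := by exact_mod_cast g4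
  have hXpos : (0 : ℝ) < X := by linarith
  have hX1 : (1 : ℝ) ≤ X := by linarith
  have hlX : 0 < Real.log X := Real.log_pos (by linarith)
  obtain ⟨y, hy⟩ : ∃ y : ℕ, y = ⌊(X : ℝ) ^ (1 / (r₀ : ℝ))⌋₊ := ⟨_, rfl⟩
  have hw : (X : ℝ) ^ (1 / (r₀ : ℝ)) = (X : ℝ) ^ (1 / (2 * r₀ : ℝ)) * (X : ℝ) ^ (1 / (2 * r₀ : ℝ)) := by
    rw [← Real.rpow_add hXpos]
    congr 1
    field_simp
    ring
  have hmax0 : (0 : ℝ) ≤ ((max y0 y1 : ℕ) : ℝ) := Nat.cast_nonneg _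
  -- `X ^ (1 / (2 r₀)) ≤ y`
  have hylow : (X : ℝ) ^ (1 / (2 * r₀ : ℝ)) ≤ y := by
    have h1 := Nat.lt_floor_add_one ((X : ℝ) ^ (1 / (r₀ : ℝ)))
    rw [← hy, hw] at h1
    nlinarith
  have hyup : (y : ℝ) ≤ (X : ℝ) ^ (1 / (r₀ : ℝ)) := by rw [hy]; exact Nat.floor_le (by positivity)
  have hy4 : max y0 y1 + 4 ≤ y := by
    have : ((max y0 y1 : ℕ) : ℝ) + 4 ≤ y := by linarith
    exact_mod_cast this
  have hy0 : y0 ≤ y := (le_max_left y0 y1).trans (by omega)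
  have hy1 : y1 ≤ y := (le_max_right y0 y1).trans (by omega)
  have hylog : Real.log X / (2 * r₀) ≤ Real.log y := by
    calc Real.log X / (2 * r₀) = Real.log ((X : ℝ) ^ (1 / (2 * r₀ : ℝ))) := by
          rw [Real.log_rpow hXpos]; ring
      _ ≤ Real.log y := Real.log_le_log (by positivity) hylow
  have hylogX : Real.log y ≤ Real.log X := by
    apply Real.log_le_log (by exact_mod_cast (by omega : 0 < y))
    calc (y : ℝ) ≤ (X : ℝ) ^ (1 / (r₀ : ℝ)) := hyup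
      _ ≤ (X : ℝ) ^ (1 : ℝ) := by
        apply Real.rpow_le_rpow_of_exponent_le hX1
        rw [div_le_one hrpos]
        linarith
      _ = X := Real.rpow_one _
  have hly0 : 0 < Real.log y := lt_of_lt_of_le (by positivity) hylog
  have hyK : (y : ℝ) ^ K1 ≤ (X : ℝ) ^ (1 / 4 : ℝ) := by
    calc (y : ℝ) ^ K1 ≤ ((X : ℝ) ^ (1 / (r₀ : ℝ))) ^ K1 := pow_le_pow_left₀ (Nat.cast_nonneg _) hyup _
      _ = (X : ℝ) ^ (1 / (r₀ : ℝ) * K1) := by rw [← Real.rpow_natCast, ← Real.rpow_mul hXpos.le]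
      _ ≤ (X : ℝ) ^ (1 / 4 : ℝ) := by
        apply Real.rpow_le_rpow_of_exponent_le hX1
        rw [div_mul_eq_mul_div, one_mul, div_le_div_iff₀ hrpos (by norm_num)]
        have : 4 * (K1 : ℝ) ≤ r₀ := by exact_mod_cast hr1
        linarith
  obtain ⟨p1, p2, p3⟩ := hPI y hy0 H hk hH
  -- the set
  obtain ⟨S, hS⟩ : ∃ S : Finset ℕ, S = (Finset.Ioc X x).filter (fun n => n.Prime ∧ ∀ p ∈ pz y, ¬ Qh H p n) :=
    ⟨_, rfl⟩
  have hPIlow : 1 / Real.log X ^ U ≤ PI H y := by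
    refine le_trans ?_ p1
    apply one_div_le_one_div_of_le (by positivity)
    exact pow_le_pow_left₀ hly0.le hylogX U
  have hcard : β * PI H y * X / (4 * Real.log X) ≤ S.card := by
    have h1 := g1 x hx1 hx2 (Qh H) (perA H (k + 1) (by omega)) (by rw [← hy]; exact hPIlow)
    rw [← hy] at h1
    rw [hS]
    exact h1
  have hmpow : (E + 2) * (X : ℝ) ^ e ≤ S.card := by
    refine le_trans ?_ hcard
    have h1 : β * (1 / Real.log X ^ U) * X / (4 * Real.log X) ≤ β * PI H y * X / (4 * Real.log X) := by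
      gcongr
    refine le_trans ?_ h1
    have h2 : β * (1 / Real.log X ^ U) * X / (4 * Real.log X) = β * X / (4 * Real.log X ^ (U + 1)) := by
      rw [pow_succ]; field_simp
    rw [h2, le_div_iff₀ (by positivity)]
    have h3 : (X : ℝ) = (X : ℝ) ^ e * (X : ℝ) ^ (1 - e) := by
      rw [← Real.rpow_add hXpos]; simp
    have h4 : (X : ℝ) ^ e * ((4 * (E + 2) / β) * Real.log (X : ℝ) ^ (U + 1)) ≤ (X : ℝ) ^ e * (X : ℝ) ^ (1 - e) :=
      mul_le_mul_of_nonneg_left g2 (by positivity)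
    rw [← h3] at h4
    have h5 : β * ((X : ℝ) ^ e * ((4 * (E + 2) / β) * Real.log (X : ℝ) ^ (U + 1))) ≤ β * X :=
      mul_le_mul_of_nonneg_left h4 hβ.le
    have h6 : β * ((X : ℝ) ^ e * ((4 * (E + 2) / β) * Real.log (X : ℝ) ^ (U + 1))) =
        (E + 2) * (X : ℝ) ^ e * (4 * Real.log (X : ℝ) ^ (U + 1)) := by
      field_simp
    linarith
  have hXe : 1 ≤ (X : ℝ) ^ e := Real.one_le_rpow hX1 (by linarith)
  have hm2 : 2 * (X : ℝ) ^ e ≤ S.card := by nlinarith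
  have hm1 : (1 : ℝ) ≤ S.card := by linarith
  have hmpos : (0 : ℝ) < S.card := by linarith
  obtain ⟨z, z1, z2, z3⟩ := enum S
  have hgood : ∀ i, i < S.card → X < z i ∧ z i ≤ x ∧ PrimeAlmost (2 * r₀) H (z i) := by
    intro i hi
    have h1 := z1 i hi
    rw [hS, mem_filter, mem_Ioc] at h1
    refine ⟨h1.1.1, h1.1.2, primeAlmost_of r₀ (by omega) H X (z i) g4 h1.2.1 (h1.1.2.trans hx2) ?_⟩
    rw [← hy]
    exact h1.2.2
  refine ⟨S.card, z, by exact_mod_cast hm1, ?_, hgood, fun i j hij hj => ⟨z2 i j hij hj, ?_⟩⟩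
  · have h1 : (X : ℝ) ^ s ≤ (X : ℝ) ^ e := Real.rpow_le_rpow_of_exponent_le hX1 (by linarith)
    nlinarith
  · -- the distribution
    have hi : i < S.card := hij.trans hj
    have hlt := z2 i j hij hj
    obtain ⟨a1, a2, -⟩ := hgood i hi
    obtain ⟨b1, b2, -⟩ := hgood j hj
    obtain ⟨ℓ, hℓ⟩ : ∃ ℓ : ℕ, ℓ = z j - z i := ⟨_, rfl⟩
    have hℓ1 : 1 ≤ ℓ := by omega
    have hℓr : (ℓ : ℝ) = (z j : ℝ) - z i := by rw [hℓ, Nat.cast_sub hlt.le]
    have hℓX : ℓ ≤ X := by omega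
    have hℓXr : (ℓ : ℝ) ≤ X := by exact_mod_cast hℓX
    have hℓ1r : (1 : ℝ) ≤ ℓ := by exact_mod_cast hℓ1
    have hℓ0 : (0 : ℝ) < ℓ := by linarith
    rw [← hℓr]
    have hcnt := z3 i j hij.le hj
    have hji : ((j : ℝ) - i + 1) = ((j - i + 1 : ℕ) : ℝ) := by
      push_cast [Nat.cast_sub hij.le]
      ring
    have hXs : 0 < (X : ℝ) ^ s := by positivity
    have hℓs : 1 ≤ (ℓ : ℝ) ^ s := Real.one_le_rpow hℓ1r hs0.le
    rw [hji]
    have hD0 : 0 < 32 * (r₀ : ℝ) / β := by positivity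
    rcases le_or_gt ((X : ℝ) ^ (1 / 2 : ℝ)) ℓ with hc | hc
    · -- long intervals
      have hsub : S.filter (fun n => z i ≤ n ∧ n ≤ z j) ⊆
          (Ioc (z i - 1) (z i - 1 + (ℓ + 1))).filter (fun n => ∀ p ∈ pz y, ¬ p ∣ n ∧ ¬ Qh H p n) := by
        intro n hn
        rw [mem_filter, hS, mem_filter, mem_Ioc] at hn
        obtain ⟨⟨⟨n1, n2⟩, n3, n4⟩, n5, n6⟩ := hn
        rw [mem_filter, mem_Ioc]
        refine ⟨⟨by omega, by omega⟩, fun p hp => ⟨fun hpn => ?_, n4 p hp⟩⟩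
        have h1 := (Nat.prime_dvd_prime_iff_eq (mem_pz.1 hp).2 n3).1 hpn
        have h2 := (mem_pz.1 hp).1
        have h3 : (y : ℝ) ≤ X := by
          calc (y : ℝ) ≤ (X : ℝ) ^ (1 / (r₀ : ℝ)) := hyup
            _ ≤ (X : ℝ) ^ (1 : ℝ) := by
              apply Real.rpow_le_rpow_of_exponent_le hX1
              rw [div_le_one hrpos]
              linarith
            _ = X := Real.rpow_one _
        have h4 : y ≤ X := by exact_mod_cast h3
        omega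
      have h1 : ((j - i + 1 : ℕ) : ℝ) ≤ 2 * ((ℓ + 1 : ℕ) : ℝ) * (PI H y / Real.log y) + (y : ℝ) ^ K1 := by
        refine le_trans ?_ (hup y hy1 H hk hH (z i - 1) (ℓ + 1))
        exact_mod_cast hcnt.trans (card_le_card hsub)
      have h2 : 2 * ((ℓ + 1 : ℕ) : ℝ) * (PI H y / Real.log y) ≤ 32 * r₀ / β * (S.card * (ℓ / X)) := by
        have h3 : PI H y / Real.log y ≤ PI H y / (Real.log X / (2 * r₀)) :=
          div_le_div_of_nonneg_left p2.le (by positivity) hylog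
        have h4 : PI H y / (Real.log X / (2 * r₀)) = (8 * r₀ / (β * X)) * (β * PI H y * X / (4 * Real.log X)) := by
          field_simp
          ring
        have h5 : PI H y / Real.log y ≤ (8 * r₀ / (β * X)) * S.card := by
          rw [h4] at h3
          exact h3.trans (mul_le_mul_of_nonneg_left hcard (by positivity))
        have h6 : ((ℓ + 1 : ℕ) : ℝ) ≤ 2 * ℓ := by push_cast; linarith
        calc 2 * ((ℓ + 1 : ℕ) : ℝ) * (PI H y / Real.log y) ≤ 2 * (2 * ℓ) * ((8 * r₀ / (β * X)) * S.card) := by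
              gcongr
          _ = 32 * r₀ / β * (S.card * (ℓ / X)) := by field_simp; ring
      have h7 : ℓ / X * (X : ℝ) ^ s ≤ (ℓ : ℝ) ^ s := by
        have e1 : (ℓ : ℝ) = (ℓ : ℝ) ^ (1 - s) * (ℓ : ℝ) ^ s := by
          rw [← Real.rpow_add hℓ0]; simp
        have e2 : (X : ℝ) = (X : ℝ) ^ (1 - s) * (X : ℝ) ^ s := by
          rw [← Real.rpow_add hXpos]; simp
        have e3 : (ℓ : ℝ) ^ (1 - s) ≤ (X : ℝ) ^ (1 - s) := Real.rpow_le_rpow hℓ0.le hℓXr (by linarith)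
        rw [div_mul_eq_mul_div, div_le_iff₀ hXpos]
        calc (ℓ : ℝ) * (X : ℝ) ^ s = ((ℓ : ℝ) ^ (1 - s) * (ℓ : ℝ) ^ s) * (X : ℝ) ^ s := by rw [← e1]
          _ ≤ ((X : ℝ) ^ (1 - s) * (ℓ : ℝ) ^ s) * (X : ℝ) ^ s := by gcongr
          _ = (ℓ : ℝ) ^ s * ((X : ℝ) ^ (1 - s) * (X : ℝ) ^ s) := by ring
          _ = (ℓ : ℝ) ^ s * X := by rw [← e2]
      have h8 : (y : ℝ) ^ K1 * (X : ℝ) ^ s ≤ S.card * (ℓ : ℝ) ^ s := by
        have e1 : ((X : ℝ) ^ (1 / 2 : ℝ)) ^ s ≤ (ℓ : ℝ) ^ s := Real.rpow_le_rpow (by positivity) hc hs0.le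
        rw [← Real.rpow_mul hXpos.le] at e1
        calc (y : ℝ) ^ K1 * (X : ℝ) ^ s ≤ (X : ℝ) ^ (1 / 4 : ℝ) * (X : ℝ) ^ s := by gcongr
          _ = (X : ℝ) ^ (1 / 4 + s) := by rw [← Real.rpow_add hXpos]
          _ ≤ (X : ℝ) ^ (e + 1 / 2 * s) := Real.rpow_le_rpow_of_exponent_le hX1 (by linarith)
          _ = (X : ℝ) ^ e * (X : ℝ) ^ (1 / 2 * s) := Real.rpow_add hXpos _ _
          _ ≤ S.card * (ℓ : ℝ) ^ s := by
            apply mul_le_mul _ e1 (by positivity) (by positivity)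
            linarith
      calc ((j - i + 1 : ℕ) : ℝ) * (X : ℝ) ^ s
          ≤ (32 * r₀ / β * (S.card * (ℓ / X)) + (y : ℝ) ^ K1) * (X : ℝ) ^ s := by
            apply mul_le_mul_of_nonneg_right _ hXs.le
            linarith
        _ = 32 * r₀ / β * S.card * (ℓ / X * (X : ℝ) ^ s) + (y : ℝ) ^ K1 * (X : ℝ) ^ s := by ring
        _ ≤ 32 * r₀ / β * S.card * (ℓ : ℝ) ^ s + S.card * (ℓ : ℝ) ^ s := by gcongr
        _ ≤ (32 * r₀ / β + 2) * S.card * (ℓ : ℝ) ^ s := by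
          have h9 : 0 < (S.card : ℝ) * (ℓ : ℝ) ^ s := mul_pos hmpos (Real.rpow_pos_of_pos hℓ0 s)
          have h10 : 0 ≤ 32 * (r₀ : ℝ) / β * ((S.card : ℝ) * (ℓ : ℝ) ^ s) := mul_nonneg hD0.le h9.le
          linarith
    · -- short intervals
      have hcnt2 : j - i + 1 ≤ ℓ + 1 := by
        refine hcnt.trans ?_
        have hsub : S.filter (fun n => z i ≤ n ∧ n ≤ z j) ⊆ Finset.Icc (z i) (z j) := by
          intro n hn
          rw [mem_filter] at hn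
          rw [mem_Icc]
          exact hn.2
        refine (card_le_card hsub).trans ?_
        rw [Nat.card_Icc]
        omega
      have h1 : ((j - i + 1 : ℕ) : ℝ) ≤ 2 * ℓ := by
        have : ((j - i + 1 : ℕ) : ℝ) ≤ ((ℓ + 1 : ℕ) : ℝ) := by exact_mod_cast hcnt2
        push_cast at this ⊢
        linarith
      have h2 : (ℓ : ℝ) ^ (1 - s) * (X : ℝ) ^ s ≤ (X : ℝ) ^ e := by
        have e1 : (ℓ : ℝ) ^ (1 - s) ≤ ((X : ℝ) ^ (1 / 2 : ℝ)) ^ (1 - s) :=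
          Real.rpow_le_rpow hℓ0.le hc.le (by linarith)
        rw [← Real.rpow_mul hXpos.le] at e1
        calc (ℓ : ℝ) ^ (1 - s) * (X : ℝ) ^ s ≤ (X : ℝ) ^ (1 / 2 * (1 - s)) * (X : ℝ) ^ s := by gcongr
          _ = (X : ℝ) ^ (1 / 2 * (1 - s) + s) := by rw [← Real.rpow_add hXpos]
          _ ≤ (X : ℝ) ^ e := Real.rpow_le_rpow_of_exponent_le hX1 (by linarith)
      have e1 : (ℓ : ℝ) = (ℓ : ℝ) ^ (1 - s) * (ℓ : ℝ) ^ s := by
        rw [← Real.rpow_add hℓ0]; simp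
      calc ((j - i + 1 : ℕ) : ℝ) * (X : ℝ) ^ s ≤ 2 * ℓ * (X : ℝ) ^ s := by gcongr
        _ = 2 * ((ℓ : ℝ) ^ (1 - s) * (ℓ : ℝ) ^ s) * (X : ℝ) ^ s := by rw [← e1]
        _ = 2 * ((ℓ : ℝ) ^ (1 - s) * (X : ℝ) ^ s) * (ℓ : ℝ) ^ s := by ring
        _ ≤ 2 * (X : ℝ) ^ e * (ℓ : ℝ) ^ s := by gcongr
        _ ≤ S.card * (ℓ : ℝ) ^ s := by gcongr
        _ ≤ (32 * r₀ / β + 2) * S.card * (ℓ : ℝ) ^ s := by
          have h9 : 0 < (S.card : ℝ) * (ℓ : ℝ) ^ s := mul_pos hmpos (Real.rpow_pos_of_pos hℓ0 s)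
          have h10 : 0 ≤ 32 * (r₀ : ℝ) / β * ((S.card : ℝ) * (ℓ : ℝ) ^ s) := mul_nonneg hD0.le h9.le
          linarith

end Pool.Agent.K6.H86.WT
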