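import Pool.Agent.K6.H86.WT.Tower

set_option autoImplicit false
set_option maxHeartbeats 4000000

/-! # Towers: dimension one -/

namespace Pool.Agent.K6.H86.WT

open Filter

lemma one_le_of (d : ENNReal) (h : ∀ s : ℝ, 0 < s → s < 1 → ENNReal.ofReal s ≤ d) : 1 ≤ d := by
  by_contra hcon
  rw [not_le] at hcon
  obtain ⟨x, hx0, hx1, hx2⟩ := ENNReal.lt_iff_exists_real_btwn.1 hcon
  have h1 : x < 1 := by
    rw [← ENNReal.ofReal_one] at hx2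
    exact (ENNReal.ofReal_lt_ofReal_iff one_pos).1 hx2
  have h2 : 0 < x := by
    rcases hx0.eq_or_lt with h | h
    · rw [← h, ENNReal.ofReal_zero] at hx1
      exact absurd hx1 ENNReal.not_lt_zero
    · exact h
  exact absurd (h x h2 h1) (not_le.2 hx1)

/-- **The Cantor construction from one interval.** -/
theorem base (k : ℕ) (c₁ : ℝ) (hc₁ : 0 < c₁) : ∃ r : ℕ, 1 ≤ r ∧ ∀ c₂ s : ℝ, 0 < s → s < 1 → ∃ Xs : ℝ,
    (∀ c : ℕ → ℝ, (∀ l, c₁ ≤ c l ∧ c l ≤ c₂) → ∀ H : ℕ → Finset ℕ, (∀ l, (H l).card ≤ k ∧ Adm (H l)) →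
      ∀ (k₁ : ℕ) (p₀ q₀ : ℝ), start c₁ ≤ p₀ → Xs ≤ tower c k₁ p₀ → tower c k₁ q₀ = tower c k₁ p₀ + 1 / 2 →
        ENNReal.ofReal s ≤
          dimH {t : ℝ | p₀ ≤ t ∧ t ≤ q₀ ∧ ∀ l, k₁ < l → PrimeAlmost r (H l) ⌊tower c l t⌋₊}) ∧
    ∀ X : ℕ, Xs ≤ X → ∀ H : Finset ℕ, H.card ≤ k → Adm H → ∃ N : ℕ, X < N ∧ PrimeAlmost r H N := by
  obtain ⟨β, hβ⟩ : ∃ β : ℝ, β = min 1 ((Real.exp (c₁ / 2) - 1) / 2) := ⟨_, rfl⟩
  have he : 1 < Real.exp (c₁ / 2) := Real.one_lt_exp_iff.2 (by linarith)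
  have hβ0 : 0 < β := by rw [hβ]; exact lt_min one_pos (by linarith)
  have hβ1 : β ≤ 1 := by rw [hβ]; exact min_le_left _ _
  have hβ2 : 1 + 2 * β ≤ Real.exp (c₁ / 2) := by
    have : β ≤ (Real.exp (c₁ / 2) - 1) / 2 := by rw [hβ]; exact min_le_right _ _
    linarith
  obtain ⟨r, DW, hr, hDW, hwin⟩ := window k β hβ0 hβ1
  refine ⟨r, hr, fun c₂ s hs0 hs1 => ?_⟩
  obtain ⟨X₀, hX₀⟩ := hwin s (2 * Real.exp c₂ ^ 2) hs0 hs1 (by positivity)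
  obtain ⟨Xs, hXs⟩ : ∃ Xs : ℝ, Xs = max (X₀ : ℝ) (max (4 / β) (Real.exp c₂ / (2 * β))) := ⟨_, rfl⟩
  have hs1' : (X₀ : ℝ) ≤ Xs := by rw [hXs]; exact le_max_left _ _
  have hs2' : 4 / β ≤ Xs := by rw [hXs]; exact (le_max_left _ _).trans (le_max_right _ _)
  have hs3' : Real.exp c₂ / (2 * β) ≤ Xs := by rw [hXs]; exact (le_max_right _ _).trans (le_max_right _ _)
  refine ⟨Xs, fun c hc H hH k₁ p₀ q₀ hp3 hk1 hq1 => ?_, fun X hX H hk hH => ?_⟩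
  · have hpos : ∀ l, 0 < c l := fun l => lt_of_lt_of_le hc₁ (hc l).1
    have hmono := tower_mono c hpos k₁
    have hq2 : p₀ < q₀ := hmono.lt_iff_lt.1 (by rw [hq1]; linarith)
    obtain ⟨AD, hAD⟩ : ∃ AD : ℕ → ℝ → ℝ → Prop, ∀ j p q, AD j p q ↔ (start c₁ ≤ p ∧ Xs ≤ tower c (k₁ + j) p ∧
        tower c (k₁ + j) q = tower c (k₁ + j) p + 1 / 2 ∧
        (0 < j → ∃ N : ℕ, tower c (k₁ + j) p = N ∧ PrimeAlmost r (H (k₁ + j)) N)) := ⟨_, fun _ _ _ => Iff.rfl⟩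
    have hcan := Pool.Agent.K6.H86.MM.cantor AD s (2 * Real.exp c₂ ^ 2 * DW) (1 / 2) hs0 hs1
      (by positivity) (by norm_num) (by norm_num) p₀ q₀ hq2
      ((hAD 0 p₀ q₀).2 ⟨hp3, hk1, hq1, fun h => absurd h (lt_irrefl 0)⟩)
      (fun j p q hj hpq => by
        obtain ⟨h1, h2, h3, -⟩ := (hAD j p q).1 hj
        exact division c₁ c₂ hc₁ c hc r DW s β hDW hs0 hs1 hβ0 hβ1 hβ2 X₀ (H (k₁ + j + 1))
          (fun X x g1 g2 g3 => hX₀ X x g1 g2 g3 (H (k₁ + j + 1)) (hH _).1 (hH _).2)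
          Xs hs1' hs2' hs3' (k₁ + j) p q h1 h2 h3 (AD (j + 1))
          (fun x y N g1 g2 g3 g4 g5 => (hAD (j + 1) x y).2
            ⟨h1.trans g1, by
              show Xs ≤ tower c (k₁ + j + 1) x
              rw [g2]; exact g4, by
              show tower c (k₁ + j + 1) y = tower c (k₁ + j + 1) x + 1 / 2
              rw [g2, g3], fun _ => ⟨N, g2, g5⟩⟩))
    refine hcan.trans (dimH_mono ?_)
    rintro t ⟨ht1, ht2, ht3⟩
    refine ⟨ht1, ht2, fun l hl => ?_⟩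
    obtain ⟨j, rfl⟩ : ∃ j, l = k₁ + j := ⟨l - k₁, by omega⟩
    obtain ⟨p, q, hj, g1, g2⟩ := ht3 j
    obtain ⟨-, -, h3, h4⟩ := (hAD j p q).1 hj
    obtain ⟨N, hN1, hN2⟩ := h4 (by omega)
    have hm := tower_mono c hpos (k₁ + j)
    have e1 : (N : ℝ) ≤ tower c (k₁ + j) t := by rw [← hN1]; exact hm.monotone g1
    have e2 : tower c (k₁ + j) t ≤ N + 1 / 2 := by rw [← hN1, ← h3]; exact hm.monotone g2
    have e3 : ⌊tower c (k₁ + j) t⌋₊ = N := by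
      rw [Nat.floor_eq_iff (by
        have : (0 : ℝ) ≤ N := Nat.cast_nonneg N
        linarith)]
      exact ⟨e1, by linarith⟩
    rw [e3]
    exact hN2
  · obtain ⟨m, y, m1, -, m3, -⟩ := hX₀ X (2 * X) (by
      have : (X₀ : ℝ) ≤ X := by linarith
      exact_mod_cast this) (by
      push_cast
      have : (0 : ℝ) ≤ X := Nat.cast_nonneg X
      nlinarith) le_rfl H hk hH
    obtain ⟨n1, -, n3⟩ := m3 0 (by omega)
    exact ⟨y 0, n1, n3⟩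

/-- the values of `r` of the two parts below -/
def Works (k : ℕ) (c₁ : ℝ) (r : ℕ) : Prop := ∀ c₂ s : ℝ, 0 < s → s < 1 → ∃ Xs : ℝ,
    (∀ c : ℕ → ℝ, (∀ l, c₁ ≤ c l ∧ c l ≤ c₂) → ∀ H : ℕ → Finset ℕ, (∀ l, (H l).card ≤ k ∧ Adm (H l)) →
      ∀ (k₁ : ℕ) (p₀ q₀ : ℝ), start c₁ ≤ p₀ → Xs ≤ tower c k₁ p₀ → tower c k₁ q₀ = tower c k₁ p₀ + 1 / 2 →
        ENNReal.ofReal s ≤
          dimH {t : ℝ | p₀ ≤ t ∧ t ≤ q₀ ∧ ∀ l, k₁ < l → PrimeAlmost r (H l) ⌊tower c l t⌋₊}) ∧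
    ∀ X : ℕ, Xs ≤ X → ∀ H : Finset ℕ, H.card ≤ k → Adm H → ∃ N : ℕ, X < N ∧ PrimeAlmost r H N

/-- **All levels.** -/
theorem allLevels (k : ℕ) (c₁ : ℝ) (hc₁ : 0 < c₁) (r : ℕ) (hr : Works k c₁ r) (c₂ : ℝ) (c : ℕ → ℝ)
    (hc : ∀ l, c₁ ≤ c l ∧ c l ≤ c₂) (H : ℕ → Finset ℕ) (hH : ∀ l, (H l).card ≤ k ∧ Adm (H l)) (a : ℝ) :
    dimH {t : ℝ | a < t ∧ ∀ l, PrimeAlmost r (H l) ⌊tower c l t⌋₊} = 1 := by
  apply le_antisymm
  · refine (dimH_mono (Set.subset_univ _)).trans ?_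
    rw [Real.dimH_univ]
  refine one_le_of _ fun s hs0 hs1 => ?_
  obtain ⟨Xs, h1, h2⟩ := hr c₂ s hs0 hs1
  obtain ⟨X, hX⟩ : ∃ X : ℕ, X = ⌈max Xs (max a (start c₁))⌉₊ := ⟨_, rfl⟩
  have hX' : max Xs (max a (start c₁)) ≤ X := by rw [hX]; exact Nat.le_ceil _
  have hX1 : Xs ≤ X := (le_max_left _ _).trans hX'
  have hX2 : a ≤ X := ((le_max_left _ _).trans (le_max_right _ _)).trans hX'
  have hX3 : start c₁ ≤ X := ((le_max_right _ _).trans (le_max_right _ _)).trans hX'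
  obtain ⟨N, n1, n2⟩ := h2 X hX1 (H 0) (hH 0).1 (hH 0).2
  have n1' : (X : ℝ) < N := by exact_mod_cast n1
  refine (h1 c hc H hH 0 N (N + 1 / 2) (by linarith) (by rw [tower_zero]; linarith) rfl).trans (dimH_mono ?_)
  rintro t ⟨ht1, ht2, ht3⟩
  refine ⟨by linarith, fun l => ?_⟩
  rcases Nat.eq_zero_or_pos l with rfl | hl
  · have e3 : ⌊tower c 0 t⌋₊ = N := by
      rw [tower_zero, Nat.floor_eq_iff (by
        have : (0 : ℝ) ≤ N := Nat.cast_nonneg N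
        linarith)]
      exact ⟨ht1, by linarith⟩
    rw [e3]
    exact n2
  · exact ht3 l hl

/-- **The dimension on intervals beyond the starting height.** -/
theorem core (k : ℕ) (c₁ : ℝ) (hc₁ : 0 < c₁) (r : ℕ) (hr : Works k c₁ r) (c₂ : ℝ) (c : ℕ → ℝ)
    (hc : ∀ l, c₁ ≤ c l ∧ c l ≤ c₂) (H : ℕ → Finset ℕ) (hH : ∀ l, (H l).card ≤ k ∧ Adm (H l))
    (a b : ℝ) (ha : start c₁ ≤ a) (hab : a < b) :
      1 ≤ dimH {t : ℝ | a < t ∧ t < b ∧ ∃ l₀, ∀ l, l₀ ≤ l → PrimeAlmost r (H l) ⌊tower c l t⌋₊} := by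
  refine one_le_of _ fun s hs0 hs1 => ?_
  have hpos : ∀ l, 0 < c l := fun l => lt_of_lt_of_le hc₁ (hc l).1
  obtain ⟨Xs, hbase, -⟩ := hr c₂ s hs0 hs1
  -- the first interval
  obtain ⟨p₀, hp₀⟩ : ∃ p₀ : ℝ, p₀ = (a + b) / 2 := ⟨_, rfl⟩
  have hp1 : a < p₀ := by rw [hp₀]; linarith
  have hp2 : p₀ < b := by rw [hp₀]; linarith
  have hp3 : start c₁ ≤ p₀ := by linarith
  obtain ⟨k₁, hk₁⟩ : ∃ k₁ : ℕ, Xs ≤ tower c k₁ p₀ ∧ 1 / 2 < tower c k₁ b - tower c k₁ p₀ := by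
    have t1 : Tendsto (fun l : ℕ => (l : ℝ)) atTop atTop := tendsto_natCast_atTop_atTop
    have t2 : Tendsto (fun l : ℕ => (2 : ℝ) ^ l * (b - p₀)) atTop atTop :=
      (tendsto_pow_atTop_atTop_of_one_lt (by norm_num)).atTop_mul_const (by linarith)
    obtain ⟨l, hl1, hl2⟩ := ((t1.eventually_ge_atTop Xs).and (t2.eventually_gt_atTop (1 / 2))).exists
    refine ⟨l, ?_, ?_⟩
    · have h1 := tower_ge c₁ c₂ hc₁ c hc p₀ hp3 l
      have h2 : 0 ≤ start c₁ := by unfold start; positivity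
      linarith
    · have h1 := gap_pow c₁ c₂ hc₁ c hc l p₀ b hp3 hp2.le
      linarith
  obtain ⟨hk1, hk2⟩ := hk₁
  obtain ⟨q₀, hq0, hq1⟩ := intermediate_value_Icc hp2.le (tower_cont c k₁).continuousOn
    (show tower c k₁ p₀ + 1 / 2 ∈ Set.Icc (tower c k₁ p₀) (tower c k₁ b) from ⟨by linarith, by linarith⟩)
  have hmono := tower_mono c hpos k₁
  have hq3 : q₀ < b := hmono.lt_iff_lt.1 (by rw [hq1]; linarith)
  refine (hbase c hc H hH k₁ p₀ q₀ hp3 hk1 hq1).trans (dimH_mono ?_)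
  rintro t ⟨ht1, ht2, ht3⟩
  exact ⟨by linarith, by linarith, k₁ + 1, fun l hl => ht3 l (by omega)⟩

/-- **The dimension on all intervals on which the tower tends to infinity at some point.** -/
theorem main (k : ℕ) (c₁ : ℝ) (hc₁ : 0 < c₁) (r : ℕ) (hr : Works k c₁ r) (c₂ : ℝ) (c : ℕ → ℝ)
    (hc : ∀ l, c₁ ≤ c l ∧ c l ≤ c₂) (H : ℕ → Finset ℕ) (hH : ∀ l, (H l).card ≤ k ∧ Adm (H l))
    (a b : ℝ) (hab : a < b) (ht : ∃ t, t < b ∧ Tendsto (fun l => tower c l t) atTop atTop) :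
      dimH {t : ℝ | a < t ∧ t < b ∧ ∃ l₀, ∀ l, l₀ ≤ l → PrimeAlmost r (H l) ⌊tower c l t⌋₊} = 1 := by
  have hpos : ∀ l, 0 < c l := fun l => lt_of_lt_of_le hc₁ (hc l).1
  apply le_antisymm
  · refine (dimH_mono (Set.subset_univ _)).trans ?_
    rw [Real.dimH_univ]
  obtain ⟨t₀, ht1, ht2⟩ := ht
  obtain ⟨a', ha'⟩ : ∃ a' : ℝ, a' = max a t₀ := ⟨_, rfl⟩
  have h1 : a ≤ a' := by rw [ha']; exact le_max_left _ _
  have h2 : t₀ ≤ a' := by rw [ha']; exact le_max_right _ _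
  have h3 : a' < b := by rw [ha']; exact max_lt hab ht1
  obtain ⟨k₀, hk₀⟩ := (ht2.eventually_ge_atTop (start c₁)).exists
  have hm := tower_mono c hpos k₀
  have h4 : start c₁ ≤ tower c k₀ a' := hk₀.trans (hm.monotone h2)
  have h5 := core k c₁ hc₁ r hr c₂ (fun j => c (k₀ + j)) (fun j => hc _) (fun j => H (k₀ + j)) (fun j => hH _)
    (tower c k₀ a') (tower c k₀ b) h4 (hm h3)
  have h6 := (tower_contDiff c k₀).contDiffOn.dimH_image_le (s := Set.univ)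
    (t := {t : ℝ | a < t ∧ t < b ∧ ∃ l₀, ∀ l, l₀ ≤ l → PrimeAlmost r (H l) ⌊tower c l t⌋₊}) convex_univ
    (Set.subset_univ _)
  refine h5.trans (le_trans (dimH_mono ?_) h6)
  rintro u ⟨hu1, hu2, l₀, hu3⟩
  obtain ⟨t, htt, rfl⟩ := intermediate_value_Icc h3.le (tower_cont c k₀).continuousOn
    (show u ∈ Set.Icc (tower c k₀ a') (tower c k₀ b) from ⟨hu1.le, hu2.le⟩)
  refine ⟨t, ⟨?_, ?_, l₀ + k₀, fun l hl => ?_⟩, rfl⟩
  · exact lt_of_le_of_lt h1 (hm.lt_iff_lt.1 hu1)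
  · exact hm.lt_iff_lt.1 hu2
  · obtain ⟨j, rfl⟩ : ∃ j, l = k₀ + j := ⟨l - k₀, by omega⟩
    rw [tower_shift]
    exact hu3 j (by omega)

/-- towers with `c_l ≥ c₁ > 1 / e` tend to infinity from every starting point -/
theorem tower_tendsto (c₁ : ℝ) (hc₁ : 1 < c₁ * Real.exp 1) (c : ℕ → ℝ) (hc : ∀ l, c₁ ≤ c l) (t : ℝ) :
    Tendsto (fun l => tower c l t) atTop atTop := by
  have hc0 : 0 < c₁ := by
    by_contra hcon
    rw [not_lt] at hcon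
    have := mul_nonpos_of_nonpos_of_nonneg hcon (Real.exp_pos 1).le
    linarith
  obtain ⟨ρ, hρ⟩ : ∃ ρ : ℝ, ρ = c₁ * Real.exp 1 := ⟨_, rfl⟩
  rw [← hρ] at hc₁
  have hstep : ∀ l, 0 ≤ tower c l t → ρ * tower c l t ≤ tower c (l + 1) t := by
    intro l hl
    rw [tower_succ]
    have h1 := Real.add_one_le_exp (c l * tower c l t - 1)
    have h2 : Real.exp (c l * tower c l t) = Real.exp 1 * Real.exp (c l * tower c l t - 1) := by
      rw [← Real.exp_add]; ring_nf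
    have h3 : c₁ * tower c l t ≤ c l * tower c l t := mul_le_mul_of_nonneg_right (hc l) hl
    rw [h2, hρ]
    have h4 : c₁ * tower c l t ≤ Real.exp (c l * tower c l t - 1) := by linarith
    calc c₁ * Real.exp 1 * tower c l t = Real.exp 1 * (c₁ * tower c l t) := by ring
      _ ≤ _ := mul_le_mul_of_nonneg_left h4 (Real.exp_pos 1).le
  have hp : ∀ l, ρ ^ l * tower c 1 t ≤ tower c (l + 1) t := by
    intro l
    induction l with
    | zero => simp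
    | succ l ih =>
      have h0 : 0 ≤ tower c (l + 1) t := by rw [tower_succ]; exact (Real.exp_pos _).le
      have h1 := hstep (l + 1) h0
      rw [pow_succ]
      calc ρ ^ l * ρ * tower c 1 t = ρ * (ρ ^ l * tower c 1 t) := by ring
        _ ≤ ρ * tower c (l + 1) t := mul_le_mul_of_nonneg_left ih (by linarith)
        _ ≤ _ := h1
  rw [← tendsto_add_atTop_iff_nat 1]
  refine tendsto_atTop_mono hp ?_
  exact (tendsto_pow_atTop_atTop_of_one_lt hc₁).atTop_mul_const (by rw [tower_succ]; exact Real.exp_pos _)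

end Pool.Agent.K6.H86.WT
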