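import Pool.Agent.W123.RU.Prime
import Pool.Agent.H373R2.T7.Fund
import Pool.Agent.TH423.SH.PRDP

set_option autoImplicit false
set_option maxHeartbeats 4000000

/-! # Primes with almost prime shifts: lower bound in `(X, (1 + β) X]`, upper bound in short intervals -/

namespace Pool.Agent.K6.H86.WT

open Finset Filter Pool.Agent.H373R2.T7 Pool.Agent.W123.RP

open Classical in
/-- primes avoiding a system of classes, lower bound, uniform in the system (a variant of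
`Pool.Agent.W123.RU.prime_lower`, for intervals `(X, x]`, `(1 + β) X ≤ x ≤ 2 X`) -/
theorem prime_low (c : ℕ) (hc : 1 ≤ c) (β : ℝ) (hβ : 0 < β) (hβ1 : β ≤ 1) :
    ∃ K0 : ℕ, 2 ≤ K0 ∧ ∀ r : ℕ, K0 ≤ r → ∀ U : ℕ, ∀ᶠ X : ℕ in atTop, ∀ x : ℕ, (1 + β) * X ≤ x → x ≤ 2 * X →
      ∀ QA : ℕ → ℕ → Prop, PerA QA c →
      1 / Real.log X ^ U ≤ ∏ p ∈ pz ⌊(X : ℝ) ^ (1 / (r : ℝ))⌋₊, (1 - (rhoA QA p : ℝ) / (p - 1 : ℝ)) →
      β * (∏ p ∈ pz ⌊(X : ℝ) ^ (1 / (r : ℝ))⌋₊, (1 - (rhoA QA p : ℝ) / (p - 1 : ℝ))) * X / (4 * Real.log X) ≤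
        (((Finset.Ioc X x).filter (fun n => n.Prime ∧
        ∀ p ∈ pz ⌊(X : ℝ) ^ (1 / (r : ℝ))⌋₊, ¬ QA p n)).card : ℝ) := by
  obtain ⟨K1, hK1, hfund⟩ := lam_fund c hc (β / 20) (by positivity)
  refine ⟨max K1 2, le_max_right _ _, ?_⟩
  intro r hr U
  obtain ⟨x0, hx0⟩ := hfund (U + 1)
  have hr1 : K1 ≤ r := (le_max_left _ _).trans hr
  have hr2 : 2 ≤ r := (le_max_right _ _).trans hr
  have hrr : (2 : ℝ) ≤ r := by exact_mod_cast hr2
  have hrpos : (0 : ℝ) < r := by linarith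
  have hXr : Tendsto (fun X : ℕ => (X : ℝ)) atTop atTop := tendsto_natCast_atTop_atTop
  have hpow : Tendsto (fun X : ℕ => (X : ℝ) ^ (1 / (r : ℝ))) atTop atTop :=
    (tendsto_rpow_atTop (by positivity)).comp hXr
  have hev1 : ∀ᶠ X : ℕ in atTop, (64 / β) * Real.log (X : ℝ) ^ (U + 1) ≤ √(X : ℝ) := by
    have h := ((isLittleO_log_rpow_rpow_atTop ((U + 1 : ℕ) : ℝ) (by norm_num : (0 : ℝ) < 1 / 2)).comp_tendsto
      tendsto_natCast_atTop_atTop).bound (by positivity : (0 : ℝ) < β / 64)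
    filter_upwards [h, eventually_ge_atTop 1] with X h2 hX1
    have hX1' : (1 : ℝ) ≤ X := by exact_mod_cast hX1
    have hlog : 0 ≤ Real.log (X : ℝ) := Real.log_nonneg hX1'
    simp only [Function.comp_def] at h2
    rw [Real.norm_of_nonneg (by positivity), Real.norm_of_nonneg (by positivity),
      Real.rpow_natCast, ← Real.sqrt_eq_rpow] at h2
    rw [div_mul_eq_mul_div, div_le_iff₀ hβ]
    linarith
  have hev2 : ∀ᶠ X : ℕ in atTop, 64 / β ≤ Real.log (X : ℝ) :=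
    (Real.tendsto_log_atTop.comp hXr).eventually_ge_atTop _
  filter_upwards [hev1, hev2, hpow.eventually_ge_atTop ((x0 : ℝ) + 3), eventually_ge_atTop 4] with X e1
    e2 e3 e4
  intro x hxl hxu QA hA hPI0
  set y : ℕ := ⌊(X : ℝ) ^ (1 / (r : ℝ))⌋₊ with hy
  have hXpos : (0 : ℝ) < X := by exact_mod_cast (by omega : 0 < X)
  have hX4 : (4 : ℝ) ≤ X := by exact_mod_cast e4
  have hxu' : (x : ℝ) ≤ 2 * X := by exact_mod_cast hxu
  have hXx' : (X : ℝ) ≤ x := by nlinarith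
  have hXx : X ≤ x := by exact_mod_cast hXx'
  have hyx0 : (x0 : ℝ) + 2 ≤ y := by
    have := Nat.lt_floor_add_one ((X : ℝ) ^ (1 / (r : ℝ)))
    rw [← hy] at this
    linarith
  have hyx0' : x0 + 2 ≤ y := by exact_mod_cast hyx0
  have hyup : (y : ℝ) ≤ (X : ℝ) ^ (1 / (r : ℝ)) := Nat.floor_le (by positivity)
  have hyr : y ^ r ≤ X := by
    have : ((y ^ r : ℕ) : ℝ) ≤ (X : ℝ) := by
      rw [Nat.cast_pow]
      calc (y : ℝ) ^ r ≤ ((X : ℝ) ^ (1 / (r : ℝ))) ^ r :=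
            pow_le_pow_left₀ (by positivity) hyup r
        _ = (X : ℝ) := by
          rw [← Real.rpow_natCast, ← Real.rpow_mul hXpos.le]
          rw [one_div, inv_mul_cancel₀ hrpos.ne', Real.rpow_one]
    exact_mod_cast this
  have hyK : y ^ K1 ≤ x := (Nat.pow_le_pow_right (by omega) hr1).trans (hyr.trans (by omega))
  set PI : ℝ := ∏ p ∈ pz y, (1 - (rhoA QA p : ℝ) / (p - 1 : ℝ)) with hPI
  have hf2 := (abs_le.1 (hx0 x y (by omega) hyK QA hA x le_rfl)).1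
  have hf1 := (abs_le.1 (hx0 x y (by omega) hyK QA hA X (by omega))).2
  rw [← hPI] at hf1 hf2
  set lx : ℝ := Real.log x with hlx
  set lX : ℝ := Real.log X with hlX
  have h64 : 64 ≤ 64 / β := by
    rw [le_div_iff₀ hβ]; linarith
  have hlX0 : 0 < lX := by linarith
  have hlxX : lX ≤ lx := Real.log_le_log hXpos hXx'
  have hlx2 : lx ≤ 2 * lX := by
    have h1 : (x : ℝ) ≤ (X : ℝ) ^ 2 := by nlinarith
    calc lx ≤ Real.log ((X : ℝ) ^ 2) := Real.log_le_log (by linarith) h1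
      _ = 2 * Real.log X := by rw [Real.log_pow]; norm_num
  have hlx0 : 0 < lx := by linarith
  -- the sums
  set Sf : ℕ → ℝ := fun Z => ∑ n ∈ (Icc 1 Z).filter (fun n : ℕ => ∀ p ∈ pz y, ¬ QA p n),
    ArithmeticFunction.vonMangoldt n with hSf
  have hdiff : Sf x - Sf X ≤ ∑ n ∈ (Ioc X x).filter (fun n => n.Prime ∧
      ∀ p ∈ pz y, ¬ QA p n), ArithmeticFunction.vonMangoldt n +
      ∑ n ∈ (Ioc 0 x).filter (fun n => ¬ n.Prime), ArithmeticFunction.vonMangoldt n := by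
    have hsub : (Icc 1 x).filter (fun n : ℕ => ∀ p ∈ pz y, ¬ QA p n) ⊆
        (Icc 1 X).filter (fun n : ℕ => ∀ p ∈ pz y, ¬ QA p n) ∪
        ((Ioc X x).filter (fun n => n.Prime ∧ ∀ p ∈ pz y, ¬ QA p n) ∪
        (Ioc 0 x).filter (fun n => ¬ n.Prime)) := by
      intro n hn
      rw [mem_filter, mem_Icc] at hn
      rw [mem_union, mem_union, mem_filter, mem_filter, mem_filter, mem_Icc, mem_Ioc, mem_Ioc]
      rcases Nat.lt_or_ge X n with h | h
      · by_cases hp : n.Prime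
        · exact Or.inr (Or.inl ⟨⟨h, hn.1.2⟩, hp, hn.2⟩)
        · exact Or.inr (Or.inr ⟨⟨by omega, hn.1.2⟩, hp⟩)
      · exact Or.inl ⟨⟨hn.1.1, h⟩, hn.2⟩
    have hΛ : ∀ n : ℕ, 0 ≤ ArithmeticFunction.vonMangoldt n :=
      fun n => ArithmeticFunction.vonMangoldt_nonneg
    have h1 : Sf x ≤ ∑ n ∈ (Icc 1 X).filter (fun n : ℕ => ∀ p ∈ pz y, ¬ QA p n) ∪
        ((Ioc X x).filter (fun n => n.Prime ∧ ∀ p ∈ pz y, ¬ QA p n) ∪
        (Ioc 0 x).filter (fun n => ¬ n.Prime)), ArithmeticFunction.vonMangoldt n :=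
      Finset.sum_le_sum_of_subset_of_nonneg hsub (fun n _ _ => hΛ n)
    have h2 : ∀ s t : Finset ℕ, ∑ n ∈ s ∪ t, ArithmeticFunction.vonMangoldt n ≤
        ∑ n ∈ s, ArithmeticFunction.vonMangoldt n + ∑ n ∈ t, ArithmeticFunction.vonMangoldt n := by
      intro s t
      have := Finset.sum_union_inter (s₁ := s) (s₂ := t) (f := fun n => ArithmeticFunction.vonMangoldt n)
      have h3 : 0 ≤ ∑ n ∈ s ∩ t, ArithmeticFunction.vonMangoldt n := Finset.sum_nonneg fun n _ => hΛ n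
      linarith
    have h3 := h2 ((Icc 1 X).filter (fun n : ℕ => ∀ p ∈ pz y, ¬ QA p n))
      ((Ioc X x).filter (fun n => n.Prime ∧ ∀ p ∈ pz y, ¬ QA p n) ∪
        (Ioc 0 x).filter (fun n => ¬ n.Prime))
    have h4 := h2 ((Ioc X x).filter (fun n => n.Prime ∧ ∀ p ∈ pz y, ¬ QA p n))
        ((Ioc 0 x).filter (fun n => ¬ n.Prime))
    have h5 : Sf X = ∑ n ∈ (Icc 1 X).filter (fun n : ℕ => ∀ p ∈ pz y, ¬ QA p n),
        ArithmeticFunction.vonMangoldt n := rfl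
    linarith
  have hpp : ∑ n ∈ (Ioc 0 x).filter (fun n => ¬ n.Prime), ArithmeticFunction.vonMangoldt n ≤
      2 * √(x : ℝ) * lx := by
    have h1 := Chebyshev.psi_sub_theta_eq_sum_not_prime (x : ℝ)
    have h2 := Chebyshev.psi_sub_theta_le (x := (x : ℝ)) (by exact_mod_cast (by omega : 1 ≤ x))
    rw [h1, Nat.floor_natCast] at h2
    exact h2
  have hlog : ∑ n ∈ (Ioc X x).filter (fun n => n.Prime ∧ ∀ p ∈ pz y, ¬ QA p n),
      ArithmeticFunction.vonMangoldt n ≤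
      (((Ioc X x).filter (fun n => n.Prime ∧ ∀ p ∈ pz y, ¬ QA p n)).card : ℝ) * lx := by
    rw [← nsmul_eq_mul]
    apply Finset.sum_le_card_nsmul
    intro n hn
    rw [mem_filter, mem_Ioc] at hn
    rw [ArithmeticFunction.vonMangoldt_apply_prime hn.2.1]
    exact Real.log_le_log (by exact_mod_cast hn.2.1.pos) (by exact_mod_cast hn.1.2)
  have hSf2 : (1 - β / 20) * (x * PI) - x / lx ^ (U + 1) ≤ Sf x := by
    simp only [hSf]
    linarith
  have hSf1 : Sf X ≤ (1 + β / 20) * (X * PI) + x / lx ^ (U + 1) := by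
    simp only [hSf]
    linarith
  set W : ℝ := X * PI with hW
  have hW1 : X / lX ^ U ≤ W := by
    rw [hW]
    calc (X : ℝ) / lX ^ U = X * (1 / lX ^ U) := by ring
      _ ≤ X * PI := mul_le_mul_of_nonneg_left hPI0 hXpos.le
  have hW0 : 0 < W := lt_of_lt_of_le (by positivity) hW1
  have hPI0' : 0 < PI := lt_of_lt_of_le (by positivity) hPI0
  have hA1 : x / lx ^ (U + 1) ≤ β * W / 32 := by
    calc (x : ℝ) / lx ^ (U + 1) ≤ 2 * X / lX ^ (U + 1) := by gcongr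
      _ ≤ β * (X / lX ^ U) / 32 := by
        rw [pow_succ, mul_div_assoc', div_div, div_le_div_iff₀ (by positivity) (by positivity)]
        have h1 : 64 ≤ β * lX := by
          rw [div_le_iff₀ hβ] at e2
          linarith
        have h2 : (X : ℝ) * lX ^ U * 64 ≤ (X : ℝ) * lX ^ U * (β * lX) :=
          mul_le_mul_of_nonneg_left h1 (by positivity)
        linarith
      _ ≤ β * W / 32 := by gcongr
  have hA2 : 2 * √(x : ℝ) * lx ≤ β * W / 8 := by
    have h1 : √(x : ℝ) ≤ 2 * √(X : ℝ) := by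
      calc √(x : ℝ) ≤ √(4 * (X : ℝ)) := Real.sqrt_le_sqrt (by linarith)
        _ = 2 * √(X : ℝ) := by
          rw [Real.sqrt_mul (by norm_num), show (4 : ℝ) = 2 ^ 2 by norm_num,
            Real.sqrt_sq (by norm_num)]
    have hsq : √(X : ℝ) * √(X : ℝ) = X := Real.mul_self_sqrt hXpos.le
    have hs0 : 0 ≤ √(X : ℝ) := Real.sqrt_nonneg _
    have hlg : 0 < lX ^ U := by positivity
    refine le_trans ?_ (div_le_div_of_nonneg_right (mul_le_mul_of_nonneg_left hW1 hβ.le)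
      (by norm_num : (0 : ℝ) ≤ 8))
    rw [mul_div_assoc', div_div, le_div_iff₀ (by positivity)]
    calc 2 * √(x : ℝ) * lx * (lX ^ U * 8) ≤ 2 * (2 * √(X : ℝ)) * (2 * lX) * (lX ^ U * 8) := by
          gcongr
      _ = √(X : ℝ) * (β * (64 / β * lX ^ (U + 1))) := by rw [pow_succ]; field_simp; ring
      _ ≤ √(X : ℝ) * (β * √(X : ℝ)) := by gcongr
      _ = β * (√(X : ℝ) * √(X : ℝ)) := by ring
      _ = β * X := by rw [hsq]
  have hcount : β * W / 2 ≤ (((Ioc X x).filter (fun n => n.Prime ∧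
      ∀ p ∈ pz y, ¬ QA p n)).card : ℝ) * lx := by
    have h1 : (1 + β) * X * PI ≤ x * PI := mul_le_mul_of_nonneg_right hxl hPI0'.le
    have h2 : x * PI ≤ 2 * X * PI := mul_le_mul_of_nonneg_right hxu' hPI0'.le
    have h3 : (1 + β) * X * PI = W + β * W := by rw [hW]; ring
    have h4 : 2 * X * PI = 2 * W := by rw [hW]; ring
    have h5 : β / 20 * (x * PI) ≤ β / 20 * (2 * W) := by
      apply mul_le_mul_of_nonneg_left _ (by positivity)
      linarith
    have h6 : 0 < β * W := by positivity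
    nlinarith
  calc β * PI * X / (4 * lX) = β * W / 2 / (2 * lX) := by rw [hW]; field_simp; ring
    _ ≤ β * W / 2 / lx := by gcongr
    _ ≤ _ := by
        rw [div_le_iff₀ hlx0]
        exact hcount

end Pool.Agent.K6.H86.WT
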