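import Pool.Agent.K6.H86.WT.List
import Pool.Agent.K6.H86.MM.Cantor

set_option autoImplicit false
set_option maxHeartbeats 4000000

/-! # Towers of exponentials: growth, distortion, and the division step -/

namespace Pool.Agent.K6.H86.WT

open Filter

/-- the tower `G_0(t) = t`, `G_{l+1}(t) = exp (c_l G_l(t))` -/
noncomputable def tower (c : ℕ → ℝ) : ℕ → ℝ → ℝ
  | 0, t => t
  | l + 1, t => Real.exp (c l * tower c l t)

/-- the derivative of the tower -/
noncomputable def der (c : ℕ → ℝ) : ℕ → ℝ → ℝ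
  | 0, _ => 1
  | l + 1, t => Real.exp (c l * tower c l t) * (c l * der c l t)

lemma tower_zero (c : ℕ → ℝ) (t : ℝ) : tower c 0 t = t := rfl

lemma tower_succ (c : ℕ → ℝ) (l : ℕ) (t : ℝ) : tower c (l + 1) t = Real.exp (c l * tower c l t) := rfl

lemma der_succ (c : ℕ → ℝ) (l : ℕ) (t : ℝ) :
    der c (l + 1) t = Real.exp (c l * tower c l t) * (c l * der c l t) := rfl

lemma tower_shift (c : ℕ → ℝ) (k l : ℕ) (t : ℝ) :
    tower c (k + l) t = tower (fun j => c (k + j)) l (tower c k t) := by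
  induction l with
  | zero => rfl
  | succ l ih => rw [← add_assoc, tower_succ, tower_succ, ih]

lemma hasDeriv (c : ℕ → ℝ) (l : ℕ) (t : ℝ) : HasDerivAt (tower c l) (der c l t) t := by
  induction l with
  | zero => exact hasDerivAt_id t
  | succ l ih => exact (ih.const_mul (c l)).exp

lemma tower_contDiff (c : ℕ → ℝ) (l : ℕ) : ContDiff ℝ 1 (tower c l) := by
  induction l with
  | zero => exact contDiff_id
  | succ l ih => exact (contDiff_const.mul ih).exp

lemma tower_cont (c : ℕ → ℝ) (l : ℕ) : Continuous (tower c l) := (tower_contDiff c l).continuous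

lemma tower_mono (c : ℕ → ℝ) (hc : ∀ l, 0 < c l) (l : ℕ) : StrictMono (tower c l) := by
  induction l with
  | zero => exact strictMono_id
  | succ l ih =>
    intro x y hxy
    rw [tower_succ, tower_succ]
    exact Real.exp_lt_exp.2 (mul_lt_mul_of_pos_left (ih hxy) (hc l))

lemma der_pos (c : ℕ → ℝ) (hc : ∀ l, 0 < c l) (l : ℕ) (t : ℝ) : 0 < der c l t := by
  induction l with
  | zero => exact one_pos
  | succ l ih =>
    rw [der_succ]
    have := hc l
    positivity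

lemma der_mono (c : ℕ → ℝ) (hc : ∀ l, 0 < c l) (l : ℕ) (x y : ℝ) (hxy : x ≤ y) : der c l x ≤ der c l y := by
  induction l with
  | zero => exact le_rfl
  | succ l ih =>
    rw [der_succ, der_succ]
    have h1 : tower c l x ≤ tower c l y := (tower_mono c hc l).monotone hxy
    have h2 := hc l
    have h3 := der_pos c hc l x
    apply mul_le_mul
    · exact Real.exp_le_exp.2 (mul_le_mul_of_nonneg_left h1 h2.le)
    · exact mul_le_mul_of_nonneg_left ih h2.le
    · positivity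
    · positivity

/-- the starting height -/
noncomputable def start (c₁ : ℝ) : ℝ := 2 / c₁ ^ 2 + 2 / c₁ + 2

lemma start_spec (c₁ : ℝ) (hc₁ : 0 < c₁) (u : ℝ) (hu : start c₁ ≤ u) :
    2 ≤ c₁ * u ∧ 2 ≤ u ∧ ∀ x, c₁ ≤ x → u + 1 ≤ Real.exp (x * u) := by
  unfold start at hu
  have h1 : 0 < 2 / c₁ ^ 2 := by positivity
  have h2 : 0 < 2 / c₁ := by positivity
  have h3 : 2 / c₁ ≤ u := by linarith
  have h4 : 2 / c₁ ^ 2 ≤ u := by linarith
  rw [div_le_iff₀ hc₁] at h3
  rw [div_le_iff₀ (by positivity)] at h4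
  have hu2 : 2 ≤ u := by linarith
  refine ⟨by linarith, hu2, fun x hx => ?_⟩
  have h5 : c₁ * u ≤ x * u := mul_le_mul_of_nonneg_right hx (by linarith)
  have h6 := Real.quadratic_le_exp_of_nonneg (x := c₁ * u) (by positivity)
  have h7 : u * 2 ≤ u * (u * c₁ ^ 2) := mul_le_mul_of_nonneg_left h4 (by linarith)
  have h8 : Real.exp (c₁ * u) ≤ Real.exp (x * u) := Real.exp_le_exp.2 h5
  nlinarith

section

variable (c₁ c₂ : ℝ) (hc₁ : 0 < c₁) (c : ℕ → ℝ) (hc : ∀ l, c₁ ≤ c l ∧ c l ≤ c₂)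

include hc₁ hc

lemma tower_ge (t : ℝ) (ht : start c₁ ≤ t) (l : ℕ) : start c₁ + l ≤ tower c l t := by
  induction l with
  | zero => simpa [tower_zero] using ht
  | succ l ih =>
    rw [tower_succ]
    have h0 : (0 : ℝ) ≤ l := Nat.cast_nonneg l
    have h1 := (start_spec c₁ hc₁ (tower c l t) (by linarith)).2.2 (c l) (hc l).1
    push_cast
    linarith

lemma tower_ge' (t : ℝ) (ht : start c₁ ≤ t) (l : ℕ) : start c₁ ≤ tower c l t := by
  have := tower_ge c₁ c₂ hc₁ c hc t ht l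
  have h0 : (0 : ℝ) ≤ l := Nat.cast_nonneg l
  linarith

lemma tower_next (t : ℝ) (ht : start c₁ ≤ t) (l : ℕ) : tower c l t + 1 ≤ tower c (l + 1) t :=
  (start_spec c₁ hc₁ (tower c l t) (tower_ge' c₁ c₂ hc₁ c hc t ht l)).2.2 (c l) (hc l).1

lemma two_le (t : ℝ) (ht : start c₁ ≤ t) (l l' : ℕ) : 2 ≤ c l' * tower c l t := by
  have h1 := tower_ge' c₁ c₂ hc₁ c hc t ht l
  have h2 := start_spec c₁ hc₁ (tower c l t) h1
  have h3 : c₁ * tower c l t ≤ c l' * tower c l t := mul_le_mul_of_nonneg_right (hc l').1 (by linarith [h2.2.1])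
  linarith [h2.1]

omit hc₁ hc in
lemma grow (l : ℕ) (x y : ℝ) :
    tower c (l + 1) x * (c l * (tower c l y - tower c l x)) ≤ tower c (l + 1) y - tower c (l + 1) x := by
  rw [tower_succ, tower_succ]
  have h1 : Real.exp (c l * tower c l y) =
      Real.exp (c l * tower c l x) * Real.exp (c l * (tower c l y - tower c l x)) := by
    rw [← Real.exp_add]
    ring_nf
  have h2 := Real.add_one_le_exp (c l * (tower c l y - tower c l x))
  have h3 := Real.exp_pos (c l * tower c l x)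
  rw [h1]
  nlinarith

lemma gap_two (l : ℕ) (x y : ℝ) (hx : start c₁ ≤ x) (hxy : x ≤ y) :
    2 * (tower c l y - tower c l x) ≤ tower c (l + 1) y - tower c (l + 1) x := by
  have hpos : ∀ l, 0 < c l := fun l => lt_of_lt_of_le hc₁ (hc l).1
  have h1 := grow c l x y
  have h2 : 0 ≤ tower c l y - tower c l x := sub_nonneg.2 ((tower_mono c hpos l).monotone hxy)
  have h3 := two_le c₁ c₂ hc₁ c hc x hx (l + 1) l
  nlinarith

lemma gap_pow (l : ℕ) (x y : ℝ) (hx : start c₁ ≤ x) (hxy : x ≤ y) :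
    2 ^ l * (y - x) ≤ tower c l y - tower c l x := by
  induction l with
  | zero => simp [tower_zero]
  | succ l ih =>
    have h1 := gap_two c₁ c₂ hc₁ c hc l x y hx hxy
    rw [pow_succ]
    linarith

/-- **Distortion.** -/
lemma der_bound (x y : ℝ) (hx : start c₁ ≤ x) (hxy : x ≤ y) (l : ℕ) :
    der c l y ≤ der c l x * Real.exp (c l * (tower c l y - tower c l x)) ∧
    der c (l + 1) y ≤ der c (l + 1) x * Real.exp (2 * (c l * (tower c l y - tower c l x))) := by
  have hpos : ∀ l, 0 < c l := fun l => lt_of_lt_of_le hc₁ (hc l).1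
  have second : ∀ l, der c l y ≤ der c l x * Real.exp (c l * (tower c l y - tower c l x)) →
      der c (l + 1) y ≤ der c (l + 1) x * Real.exp (2 * (c l * (tower c l y - tower c l x))) := by
    intro l h
    rw [der_succ, der_succ]
    have h1 : Real.exp (c l * tower c l y) =
        Real.exp (c l * tower c l x) * Real.exp (c l * (tower c l y - tower c l x)) := by
      rw [← Real.exp_add]
      ring_nf
    have h2 : Real.exp (2 * (c l * (tower c l y - tower c l x))) =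
        Real.exp (c l * (tower c l y - tower c l x)) * Real.exp (c l * (tower c l y - tower c l x)) := by
      rw [← Real.exp_add]
      ring_nf
    have h3 := hpos l
    rw [h1, h2]
    calc Real.exp (c l * tower c l x) * Real.exp (c l * (tower c l y - tower c l x)) * (c l * der c l y)
        ≤ Real.exp (c l * tower c l x) * Real.exp (c l * (tower c l y - tower c l x)) *
          (c l * (der c l x * Real.exp (c l * (tower c l y - tower c l x)))) := by gcongr
      _ = _ := by ring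
  induction l with
  | zero =>
    have h0 : der c 0 y ≤ der c 0 x * Real.exp (c 0 * (tower c 0 y - tower c 0 x)) := by
      have h1 : (1 : ℝ) ≤ 1 * Real.exp (c 0 * (y - x)) := by
        rw [one_mul]
        exact Real.one_le_exp (mul_nonneg (hpos 0).le (by linarith))
      exact h1
    exact ⟨h0, second 0 h0⟩
  | succ l ih =>
    have h0 : der c (l + 1) y ≤ der c (l + 1) x * Real.exp (c (l + 1) * (tower c (l + 1) y - tower c (l + 1) x)) := by
      refine ih.2.trans ?_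
      apply mul_le_mul_of_nonneg_left _ (der_pos c hpos (l + 1) x).le
      apply Real.exp_le_exp.2
      have h1 := grow c l x y
      have h2 : 0 ≤ tower c l y - tower c l x := sub_nonneg.2 ((tower_mono c hpos l).monotone hxy)
      have h3 := two_le c₁ c₂ hc₁ c hc x hx (l + 1) (l + 1)
      have h4 : 0 ≤ c l * (tower c l y - tower c l x) := mul_nonneg (hpos l).le h2
      have h5 : c (l + 1) * (tower c (l + 1) x * (c l * (tower c l y - tower c l x))) ≤
          c (l + 1) * (tower c (l + 1) y - tower c (l + 1) x) := mul_le_mul_of_nonneg_left h1 (hpos (l + 1)).le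
      nlinarith
    exact ⟨h0, second (l + 1) h0⟩

/-- the mean value estimates on an interval of level `l` -/
lemma mvt (l : ℕ) (p q : ℝ) (hp : start c₁ ≤ p) (hq : tower c l q = tower c l p + 1 / 2) (x y : ℝ)
    (hpx : p ≤ x) (hxy : x ≤ y) (hyq : y ≤ q) :
    der c (l + 1) p * (y - x) ≤ tower c (l + 1) y - tower c (l + 1) x ∧
    tower c (l + 1) y - tower c (l + 1) x ≤ Real.exp c₂ * der c (l + 1) p * (y - x) := by
  have hpos : ∀ l, 0 < c l := fun l => lt_of_lt_of_le hc₁ (hc l).1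
  have hcont := (tower_cont c (l + 1)).continuousOn (s := Set.Icc p q)
  have hdiff : DifferentiableOn ℝ (tower c (l + 1)) (interior (Set.Icc p q)) :=
    ((tower_contDiff c (l + 1)).differentiable (by norm_num)).differentiableOn
  have hx : x ∈ Set.Icc p q := ⟨hpx, hxy.trans hyq⟩
  have hy : y ∈ Set.Icc p q := ⟨hpx.trans hxy, hyq⟩
  constructor
  · apply (convex_Icc p q).mul_sub_le_image_sub_of_le_deriv hcont hdiff _ x hx y hy hxy
    intro z hz
    rw [interior_Icc] at hz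
    rw [(hasDeriv c (l + 1) z).deriv]
    exact der_mono c hpos (l + 1) p z hz.1.le
  · apply (convex_Icc p q).image_sub_le_mul_sub_of_deriv_le hcont hdiff _ x hx y hy hxy
    intro z hz
    rw [interior_Icc] at hz
    rw [(hasDeriv c (l + 1) z).deriv]
    refine (der_bound c₁ c₂ hc₁ c hc p z hp hz.1.le l).2.trans ?_
    rw [mul_comm]
    apply mul_le_mul_of_nonneg_right _ (der_pos c hpos (l + 1) p).le
    apply Real.exp_le_exp.2
    have h1 : tower c l z ≤ tower c l q := (tower_mono c hpos l).monotone hz.2.le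
    have h2 : c l * (tower c l z - tower c l p) ≤ c l * (1 / 2) :=
      mul_le_mul_of_nonneg_left (by linarith) (hpos l).le
    have h3 := (hc l).2
    linarith

end

lemma aux (g δ D W K X s : ℝ) (hg : 0 ≤ g) (hδ : 0 < δ) (hD : 0 < D) (hW : 0 < W) (hK : 1 ≤ K)
    (hX : 0 < X) (hs0 : 0 < s) (hs1 : s < 1) (h1 : g ≤ 2 * K * D * δ) (h2 : D * W ≤ K * X) :
    g ^ s * W ^ s ≤ 2 * K ^ 2 * (X ^ s * δ ^ s) := by
  have h3 : g * W ≤ 2 * K ^ 2 * (X * δ) := by
    calc g * W ≤ 2 * K * D * δ * W := mul_le_mul_of_nonneg_right h1 hW.le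
      _ = 2 * K * δ * (D * W) := by ring
      _ ≤ 2 * K * δ * (K * X) := mul_le_mul_of_nonneg_left h2 (by positivity)
      _ = _ := by ring
  have h4 : (1 : ℝ) ≤ 2 * K ^ 2 := by nlinarith
  calc g ^ s * W ^ s = (g * W) ^ s := (Real.mul_rpow hg hW.le).symm
    _ ≤ (2 * K ^ 2 * (X * δ)) ^ s := Real.rpow_le_rpow (by positivity) h3 hs0.le
    _ = (2 * K ^ 2) ^ s * (X ^ s * δ ^ s) := by
        rw [Real.mul_rpow (by positivity) (by positivity), Real.mul_rpow hX.le hδ.le]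
    _ ≤ (2 * K ^ 2) ^ (1 : ℝ) * (X ^ s * δ ^ s) := by
        apply mul_le_mul_of_nonneg_right _ (by positivity)
        exact Real.rpow_le_rpow_of_exponent_le h4 hs1.le
    _ = _ := by rw [Real.rpow_one]

/-- **The division step.** -/
theorem division (c₁ c₂ : ℝ) (hc₁ : 0 < c₁) (c : ℕ → ℝ) (hc : ∀ l, c₁ ≤ c l ∧ c l ≤ c₂) (r : ℕ)
    (DW s β : ℝ) (hDW : 1 ≤ DW) (hs0 : 0 < s) (hs1 : s < 1) (hβ : 0 < β) (hβ1 : β ≤ 1)
    (hβ2 : 1 + 2 * β ≤ Real.exp (c₁ / 2)) (X₀ : ℕ) (H : Finset ℕ)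
    (hwin : ∀ X x : ℕ, X₀ ≤ X → (1 + β) * X ≤ x → x ≤ 2 * X → ∃ (m : ℕ) (y : ℕ → ℕ),
      1 ≤ m ∧ 2 * Real.exp c₂ ^ 2 * (X : ℝ) ^ s ≤ m ∧
        (∀ i, i < m → X < y i ∧ y i ≤ x ∧ PrimeAlmost r H (y i)) ∧
        (∀ i j, i < j → j < m → y i < y j ∧
          ((j : ℝ) - i + 1) * (X : ℝ) ^ s ≤ DW * m * ((y j : ℝ) - y i) ^ s))
    (Xs : ℝ) (hX0 : (X₀ : ℝ) ≤ Xs) (hX1 : 4 / β ≤ Xs) (hX2 : Real.exp c₂ / (2 * β) ≤ Xs)
    (l : ℕ) (p q : ℝ) (hp : start c₁ ≤ p) (hXp : Xs ≤ tower c l p) (hq : tower c l q = tower c l p + 1 / 2)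
    (A : ℝ → ℝ → Prop)
    (hA : ∀ (x y : ℝ) (N : ℕ), p ≤ x → tower c (l + 1) x = N → tower c (l + 1) y = N + 1 / 2 → Xs ≤ N →
      PrimeAlmost r H N → A x y) :
    ∃ lo hi c' d' : ℝ → ℝ,
      Pool.Agent.K6.H86.MM.Division s (2 * Real.exp c₂ ^ 2 * DW) (1 / 2) p q A lo hi c' d' := by
  have hpos : ∀ l, 0 < c l := fun l => lt_of_lt_of_le hc₁ (hc l).1
  have hc12 : c₁ ≤ c₂ := (hc 0).1.trans (hc 0).2
  have hmono := tower_mono c hpos (l + 1)
  have hcont := tower_cont c (l + 1)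
  have hpq : p < q := (tower_mono c hpos l).lt_iff_lt.1 (by linarith)
  have hmv := mvt c₁ c₂ hc₁ c hc l p q hp hq
  obtain ⟨K, hK⟩ : ∃ K : ℝ, K = Real.exp c₂ := ⟨_, rfl⟩
  obtain ⟨D, hD⟩ : ∃ D : ℝ, D = der c (l + 1) p := ⟨_, rfl⟩
  obtain ⟨T, hT⟩ : ∃ T : ℝ → ℝ, T = tower c (l + 1) := ⟨_, rfl⟩
  have hK1 : 1 ≤ K := by rw [hK]; exact Real.one_le_exp (by linarith)
  have hD0 : 0 < D := by rw [hD]; exact der_pos c hpos (l + 1) p
  obtain ⟨X, hX⟩ : ∃ X : ℝ, X = T p := ⟨_, rfl⟩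
  obtain ⟨Y, hY⟩ : ∃ Y : ℝ, Y = T q := ⟨_, rfl⟩
  have hYX : Y = X * Real.exp (c l / 2) := by
    rw [hY, hX, hT, tower_succ, tower_succ, hq, ← Real.exp_add]
    ring_nf
  have hXs : Xs ≤ X := by
    have := tower_next c₁ c₂ hc₁ c hc p hp l
    rw [hX, hT]
    linarith
  rw [← hK] at hwin hX2 ⊢
  rw [← hK, ← hD, ← hT] at hmv
  rw [← hT] at hmono hcont hA
  have hX4 : 4 ≤ β * X := by
    rw [div_le_iff₀ hβ] at hX1
    nlinarith
  have hXK : K ≤ 2 * β * X := by
    rw [div_le_iff₀ (by positivity)] at hX2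
    nlinarith
  have hX4' : 4 ≤ X := by nlinarith
  have hX0' : 0 < X := by linarith
  have hY1 : (1 + 2 * β) * X ≤ Y := by
    rw [hYX, mul_comm]
    apply mul_le_mul_of_nonneg_left _ hX0'.le
    refine hβ2.trans (Real.exp_le_exp.2 ?_)
    have := (hc l).1
    linarith
  have hY2 : Y ≤ K * X := by
    rw [hYX, mul_comm]
    apply mul_le_mul_of_nonneg_right _ hX0'.le
    rw [hK]
    apply Real.exp_le_exp.2
    have := (hc l).2
    have := hpos l
    linarith
  -- the window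
  obtain ⟨X₁, hX₁⟩ : ∃ X₁ : ℕ, X₁ = ⌈X⌉₊ := ⟨_, rfl⟩
  have a1 : X ≤ X₁ := by rw [hX₁]; exact Nat.le_ceil X
  have a2 : (X₁ : ℝ) < X + 1 := by rw [hX₁]; exact Nat.ceil_lt_add_one hX0'.le
  obtain ⟨x₂, hx₂⟩ : ∃ x₂ : ℕ, x₂ = min (⌊Y⌋₊ - 1) (2 * X₁) := ⟨_, rfl⟩
  have hY4 : 4 ≤ Y := by nlinarith
  have b1 : 1 ≤ ⌊Y⌋₊ := Nat.le_floor (by push_cast; linarith)
  have b2 : ((⌊Y⌋₊ - 1 : ℕ) : ℝ) = (⌊Y⌋₊ : ℝ) - 1 := by rw [Nat.cast_sub b1, Nat.cast_one]
  have b3 := Nat.lt_floor_add_one Y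
  have b4 : (⌊Y⌋₊ : ℝ) ≤ Y := Nat.floor_le (by linarith)
  have hx2a : (1 + β) * X₁ ≤ (x₂ : ℝ) := by
    rw [hx₂, Nat.cast_min, b2]
    apply le_min
    · nlinarith
    · push_cast
      nlinarith
  have hx2b : x₂ ≤ 2 * X₁ := by rw [hx₂]; exact min_le_right _ _
  have hx2c : (x₂ : ℝ) + 1 ≤ Y := by
    have h1 : x₂ ≤ ⌊Y⌋₊ - 1 := by rw [hx₂]; exact min_le_left _ _
    have h2 : (x₂ : ℝ) ≤ ((⌊Y⌋₊ - 1 : ℕ) : ℝ) := by exact_mod_cast h1
    rw [b2] at h2
    linarith
  have hX1pos : (0 : ℝ) < X₁ := by linarith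
  obtain ⟨m, y, m1, m2, m3, m4⟩ := hwin X₁ x₂ (by
    have : (X₀ : ℝ) ≤ X₁ := by linarith
    exact_mod_cast this) hx2a hx2b
  have hm0 : (0 : ℝ) < m := by exact_mod_cast m1
  -- the children
  have hch : ∀ i, i < m → ∃ e f : ℝ, p ≤ e ∧ e < f ∧ f ≤ q ∧ T e = y i ∧ T f = y i + 1 / 2 := by
    intro i hi
    obtain ⟨n1, n2, -⟩ := m3 i hi
    have n1' : (X₁ : ℝ) < y i := by exact_mod_cast n1
    have n2' : (y i : ℝ) ≤ x₂ := by exact_mod_cast n2
    obtain ⟨e, he, he'⟩ := intermediate_value_Icc hpq.le hcont.continuousOn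
      (show (y i : ℝ) ∈ Set.Icc (T p) (T q) from ⟨by rw [← hX]; linarith, by rw [← hY]; linarith⟩)
    obtain ⟨f, hf, hf'⟩ := intermediate_value_Icc hpq.le hcont.continuousOn
      (show (y i : ℝ) + 1 / 2 ∈ Set.Icc (T p) (T q) from ⟨by rw [← hX]; linarith, by rw [← hY]; linarith⟩)
    exact ⟨e, f, he.1, hmono.lt_iff_lt.1 (by rw [he', hf']; linarith), hf.2, he', hf'⟩
  choose! e f e1 e2 e3 e4 e5 using hch
  obtain ⟨w, hw⟩ : ∃ w : ℝ, w = (q - p) / m := ⟨_, rfl⟩
  have hqp : 0 < q - p := by linarith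
  have hw0 : 0 < w := by rw [hw]; positivity
  have hmw : m * w = q - p := by rw [hw]; field_simp
  obtain ⟨idx, hidx⟩ : ∃ idx : ℝ → ℕ, ∀ u, idx u = ⌊(u - p) / w⌋₊ := ⟨_, fun _ => rfl⟩
  have i1 : ∀ u, p ≤ u → (idx u : ℝ) * w ≤ u - p := by
    intro u hu
    rw [← le_div_iff₀ hw0, hidx]
    exact Nat.floor_le (div_nonneg (by linarith) hw0.le)
  have i2 : ∀ u, u - p < (idx u + 1) * w := by
    intro u
    rw [← div_lt_iff₀ hw0, hidx]
    exact Nat.lt_floor_add_one _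
  have i3 : ∀ u, p ≤ u → u < q → idx u < m := by
    intro u hu1 hu2
    have h1 := i1 u hu1
    have h2 : (idx u : ℝ) * w < m * w := by linarith
    exact_mod_cast lt_of_mul_lt_mul_right h2 hw0.le
  -- the length of the parent
  have hDq : D * (q - p) ≤ K * X₁ := by
    have h1 := (hmv p q le_rfl hpq.le le_rfl).1
    rw [← hX, ← hY] at h1
    have h2 : K * X ≤ K * X₁ := mul_le_mul_of_nonneg_left a1 (by linarith)
    linarith
  have hR : (q - p) ^ (1 - s) * (q - p) ^ s = q - p := by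
    rw [← Real.rpow_add hqp]; simp
  have hRpos : 0 < (q - p) ^ (1 - s) := Real.rpow_pos_of_pos hqp _
  have hXspos : 0 < (X₁ : ℝ) ^ s := Real.rpow_pos_of_pos hX1pos _
  refine ⟨fun u => p + idx u * w, fun u => p + (idx u + 1) * w, fun u => e (idx u), fun u => f (idx u), ?_⟩
  constructor
  · intro u hu1 hu2
    have := i1 u hu1
    show p + idx u * w ≤ u
    linarith
  · intro u hu1 hu2
    have := i2 u
    show u < p + (idx u + 1) * w
    linarith
  · exact fun u hu1 hu2 => e2 _ (i3 u hu1 hu2)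
  · exact fun u hu1 hu2 => e1 _ (i3 u hu1 hu2)
  · exact fun u hu1 hu2 => e3 _ (i3 u hu1 hu2)
  · intro u hu1 hu2
    have hi := i3 u hu1 hu2
    show f (idx u) - e (idx u) ≤ (1 - 1 / 2) * (q - p)
    have h1 := (hmv (e (idx u)) (f (idx u)) (e1 _ hi) (e2 _ hi).le (e3 _ hi)).1
    rw [e4 _ hi, e5 _ hi] at h1
    have h2 := (hmv p q le_rfl hpq.le le_rfl).2
    rw [← hX, ← hY] at h2
    have h3 : 2 * β * X ≤ K * D * (q - p) := by nlinarith
    have h4 : K ≤ K * D * (q - p) := hXK.trans h3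
    have h5 : 1 ≤ D * (q - p) := by
      have h6 : K * 1 ≤ K * (D * (q - p)) := by linarith
      exact le_of_mul_le_mul_left h6 (by linarith)
    have h6 : D * (f (idx u) - e (idx u)) ≤ D * ((1 - 1 / 2) * (q - p)) := by linarith
    exact le_of_mul_le_mul_left h6 hD0
  · intro u hu1 hu2
    have hi := i3 u hu1 hu2
    obtain ⟨n1, n2, n3⟩ := m3 _ hi
    have n1' : (X₁ : ℝ) < y (idx u) := by exact_mod_cast n1
    exact hA _ _ (y (idx u)) (e1 _ hi) (e4 _ hi) (e5 _ hi) (by linarith) n3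
  · intro u hu1 hu2
    have hi := i3 u hu1 hu2
    show p + (idx u + 1) * w - (p + idx u * w) ≤ (q - p) ^ (1 - s) * (f (idx u) - e (idx u)) ^ s
    have h0 : p + (idx u + 1) * w - (p + idx u * w) = w := by ring
    rw [h0]
    have hδ : 0 < f (idx u) - e (idx u) := by linarith [e2 _ hi]
    have h1 := (hmv (e (idx u)) (f (idx u)) (e1 _ hi) (e2 _ hi).le (e3 _ hi)).2
    rw [e4 _ hi, e5 _ hi] at h1
    have h2 := aux 1 (f (idx u) - e (idx u)) D (q - p) K X₁ s zero_le_one hδ hD0 hqp hK1 hX1pos hs0 hs1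
      (by linarith) hDq
    rw [Real.one_rpow, one_mul] at h2
    have hδs : 0 < (f (idx u) - e (idx u)) ^ s := Real.rpow_pos_of_pos hδ _
    have h3 : (q - p) ^ s ≤ m * (f (idx u) - e (idx u)) ^ s := by
      refine h2.trans ?_
      rw [← mul_assoc]
      exact mul_le_mul_of_nonneg_right m2 hδs.le
    have h4 : q - p ≤ m * ((q - p) ^ (1 - s) * (f (idx u) - e (idx u)) ^ s) := by
      calc q - p = (q - p) ^ (1 - s) * (q - p) ^ s := hR.symm
        _ ≤ (q - p) ^ (1 - s) * (m * (f (idx u) - e (idx u)) ^ s) := mul_le_mul_of_nonneg_left h3 hRpos.le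
        _ = _ := by ring
    rw [← hmw] at h4
    have h5 : (m : ℝ) * w ≤ m * ((q - p) ^ (1 - s) * (f (idx u) - e (idx u)) ^ s) := by
      rw [hmw] at h4 ⊢
      exact h4
    exact le_of_mul_le_mul_left h5 hm0
  · intro u v hu huv hv
    have hu' : u < q := huv.trans hv
    have hv' : p ≤ v := hu.trans huv.le
    have hi := i3 u hu hu'
    have hj := i3 v hv' hv
    have hij : idx u ≤ idx v := by
      rw [hidx, hidx]
      apply Nat.floor_mono
      apply div_le_div_of_nonneg_right _ hw0.le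
      linarith
    rcases hij.eq_or_lt with h | h
    · left
      simp only [h]
      exact ⟨trivial, trivial, trivial, trivial⟩
    · right
      show f (idx u) < e (idx v) ∧ v - u ≤ 2 * K ^ 2 * DW * ((q - p) ^ (1 - s) * (e (idx v) - f (idx u)) ^ s)
      obtain ⟨g1, g2⟩ := m4 _ _ h hj
      have g1' : (y (idx u) : ℝ) + 1 ≤ y (idx v) := by exact_mod_cast g1
      have hlt : f (idx u) < e (idx v) := hmono.lt_iff_lt.1 (by
        rw [e5 _ hi, e4 _ hj]
        linarith)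
      refine ⟨hlt, ?_⟩
      have hpf : p ≤ f (idx u) := (e1 _ hi).trans (e2 _ hi).le
      have heq : e (idx v) ≤ q := (e2 _ hj).le.trans (e3 _ hj)
      have h1 := (hmv (f (idx u)) (e (idx v)) hpf hlt.le heq).2
      rw [e5 _ hi, e4 _ hj] at h1
      obtain ⟨δ, hδd⟩ : ∃ δ : ℝ, δ = e (idx v) - f (idx u) := ⟨_, rfl⟩
      obtain ⟨g, hg⟩ : ∃ g : ℝ, g = (y (idx v) : ℝ) - y (idx u) := ⟨_, rfl⟩
      rw [← hδd] at h1 ⊢
      rw [← hg] at g2
      have hδ : 0 < δ := by rw [hδd]; linarith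
      have hg1 : 1 ≤ g := by rw [hg]; linarith
      have h2 := aux g δ D (q - p) K X₁ s (by linarith) hδ hD0 hqp hK1 hX1pos hs0 hs1 (by
        have : g - 1 / 2 ≤ K * D * δ := by rw [hg]; linarith
        linarith) hDq
      have hδs : 0 < δ ^ s := Real.rpow_pos_of_pos hδ _
      have hqs : 0 < (q - p) ^ s := Real.rpow_pos_of_pos hqp _
      obtain ⟨n, hn⟩ : ∃ n : ℝ, n = (idx v : ℝ) - idx u + 1 := ⟨_, rfl⟩
      rw [← hn] at g2
      have h3 : n * (q - p) ^ s * (X₁ : ℝ) ^ s ≤ 2 * K ^ 2 * DW * (m * δ ^ s) * (X₁ : ℝ) ^ s := by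
        calc n * (q - p) ^ s * (X₁ : ℝ) ^ s = n * (X₁ : ℝ) ^ s * (q - p) ^ s := by ring
          _ ≤ DW * m * g ^ s * (q - p) ^ s := mul_le_mul_of_nonneg_right g2 hqs.le
          _ = DW * m * (g ^ s * (q - p) ^ s) := by ring
          _ ≤ DW * m * (2 * K ^ 2 * ((X₁ : ℝ) ^ s * δ ^ s)) := mul_le_mul_of_nonneg_left h2 (by positivity)
          _ = _ := by ring
      have h4 := le_of_mul_le_mul_right h3 hXspos
      have h5 : v - u ≤ n * w := by
        have k1 := i1 u hu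
        have k2 := i2 v
        rw [hn]
        linarith
      have h6 : (m : ℝ) * (n * w) ≤ m * (2 * K ^ 2 * DW * ((q - p) ^ (1 - s) * δ ^ s)) := by
        calc (m : ℝ) * (n * w) = n * (m * w) := by ring
          _ = n * (q - p) := by rw [hmw]
          _ = n * ((q - p) ^ (1 - s) * (q - p) ^ s) := by rw [hR]
          _ = (q - p) ^ (1 - s) * (n * (q - p) ^ s) := by ring
          _ ≤ (q - p) ^ (1 - s) * (2 * K ^ 2 * DW * (m * δ ^ s)) := mul_le_mul_of_nonneg_left h4 hRpos.le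
          _ = _ := by ring
      exact h5.trans (le_of_mul_le_mul_left h6 hm0)

end Pool.Agent.K6.H86.WT
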